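import Pool.Agent.H231R3.Mult

set_option autoImplicit false
set_option linter.unusedSectionVars false
set_option linter.unusedVariables false

open scoped InnerProductSpace ENNReal Topology Polynomial
open Polynomial

namespace Pool.Agent.H231R3

universe u

variable {K : Type u} [NormedAddCommGroup K] [InnerProductSpace ℂ K] [CompleteSpace K]
variable {P : ℕ → (K →L[ℂ] K)}

/-- the polynomial `2 + 2 i T` -/
noncomputable def ps (T : K →L[ℂ] K) : K →L[ℂ] K := (2 : ℂ) • 1 + (2 * Complex.I) • T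

/-- the polynomial `1 + (T² - 1)(2 + 2 i T)` -/
noncomputable def ph (T : K →L[ℂ] K) : K →L[ℂ] K := 1 + (T * T - 1) * ps T

theorem ph_cont : Continuous (ph : (K →L[ℂ] K) → (K →L[ℂ] K)) := by
  unfold ph ps
  fun_prop

theorem ps_MM (hP : Filt P) {T : K →L[ℂ] K} (hT : T ∈ MM P) : ps T ∈ MM P :=
  MM_add hP (MM_smul _ MM_one) (MM_smul _ hT)

theorem ph_unit [Nontrivial K] {T : K →L[ℂ] K} (hT : IsSelfAdjoint T) : IsUnit (ph T) := by
  set q : ℂ[X] := 1 + (X * X - 1) * (C 2 + C (2 * Complex.I) * X) with hq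
  have h1 : ph T = aeval T q := by
    simp only [hq, ph, ps, map_add (aeval T), map_one (aeval T), map_mul (aeval T),
      map_sub, aeval_X, aeval_C]
    rw [Algebra.algebraMap_eq_smul_one, Algebra.algebraMap_eq_smul_one, smul_mul_assoc, one_mul]
  rw [h1, ← spectrum.zero_notMem_iff ℂ, spectrum.map_polynomial_aeval_of_nonempty T q
    (spectrum.nonempty T)]
  rintro ⟨z, hz, h0⟩
  have hre := hT.mem_spectrum_eq_re hz
  obtain ⟨x, rfl⟩ : ∃ x : ℝ, (x : ℂ) = z := ⟨z.re, hre.symm⟩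
  simp only [hq, eval_add, eval_one, eval_mul, eval_sub, eval_X, eval_C] at h0
  have e1 := congrArg Complex.re h0
  have e2 := congrArg Complex.im h0
  simp at e1 e2
  rcases e2 with h | h
  · nlinarith
  · subst h; norm_num at e1

theorem aeval_MM (hP : Filt P) {S : K →L[ℂ] K} (hS : S ∈ MM P) (q : ℝ[X]) :
    aeval S q ∈ MM P := by
  induction q using Polynomial.induction_on with
  | C r =>
    rw [aeval_C, Algebra.algebraMap_eq_smul_one]
    have := MM_smul (P := P) (r : ℂ) MM_one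
    have e : r • (1 : K →L[ℂ] K) = (r : ℂ) • 1 := by
      ext x
      simp
    rw [e]
    exact this
  | add p q hp hq => rw [map_add]; exact MM_add hP hp hq
  | monomial n r _ =>
    rw [map_mul, aeval_C, map_pow, aeval_X, Algebra.algebraMap_eq_smul_one, smul_mul_assoc,
      one_mul]
    have := MM_smul (P := P) (r : ℂ) (MM_pow hS (n + 1))
    have e : r • (S ^ (n + 1)) = (r : ℂ) • S ^ (n + 1) := by
      ext x
      simp
    rw [e]
    exact this

theorem cfc_MM (hP : Filt P) {S : K →L[ℂ] K} (hS : S ∈ MM P) (hsa : IsSelfAdjoint S)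
    (hfin : (spectrum ℝ S).Finite) (f : ℝ → ℝ) : cfc f S ∈ MM P := by
  classical
  have : cfc f S = cfc (Lagrange.interpolate hfin.toFinset id f).eval S := by
    refine cfc_congr fun x hx => ?_
    have := Lagrange.eval_interpolate_at_node (s := hfin.toFinset) (v := id) (r := f) (i := x)
      (Function.injective_id.injOn) (by simpa using hx)
    exact this.symm
  rw [this, cfc_polynomial _ _ hsa]
  exact aeval_MM hP hS _

/-- real part -/
noncomputable def re' (T : K →L[ℂ] K) : K →L[ℂ] K := (1 / 2 : ℂ) • (T + star T)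

theorem re'_sa (T : K →L[ℂ] K) : star (re' T) = re' T := by
  unfold re'
  rw [star_smul, star_add, star_star, add_comm]
  simp

theorem re'_add (S T : K →L[ℂ] K) : re' (S + T) = re' S + re' T := by
  unfold re'
  rw [star_add, ← smul_add]
  congr 1
  abel

theorem re'_eq {T : K →L[ℂ] K} (h : star T = T) : re' T = T := by
  unfold re'
  rw [h, ← two_smul ℂ T, smul_smul]
  norm_num

theorem re'_norm (T : K →L[ℂ] K) : ‖re' T‖ ≤ ‖T‖ := by
  unfold re'
  rw [norm_smul]
  have := norm_add_le T (star T)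
  rw [norm_star] at this
  norm_num
  linarith

theorem re'_I0 (hP : Filt P) {T : K →L[ℂ] K} (h : T ∈ I0 P) : re' T ∈ I0 P :=
  I0_smul _ (I0_add hP h (I0_star h))

theorem re'_Mc (hP : Filt P) {T : K →L[ℂ] K} (h : T ∈ Mc P) : re' T ∈ Mc P :=
  Mc_smul _ (Mc_add hP h (Mc_star h))

/-- change of `ph` modulo `Mc` -/
theorem ph_Mc (hP : Filt P) {X c : K →L[ℂ] K} (hX : X ∈ MM P) (hc : c ∈ Mc P) :
    ph (X + c) - ph X ∈ Mc P := by
  have e : ph (X + c) - ph X = (X * c + c * X + c * c) * ps (X + c) +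
      (X * X - 1) * ((2 * Complex.I) • c) := by
    have h1 : (X + c) * (X + c) - 1 = (X * X - 1) + (X * c + c * X + c * c) := by noncomm_ring
    have h2 : (2 * Complex.I) • c = ps (X + c) - ps X := by
      unfold ps; rw [smul_add]; abel
    unfold ph
    rw [h1, h2]
    noncomm_ring
  rw [e]
  have hXc : X + c ∈ MM P := MM_add hP hX hc.1
  refine Mc_add hP (Mc_mul_right hP ?_ (ps_MM hP hXc)) (Mc_mul_left hP (Mc_smul _ hc) ?_)
  · exact Mc_add hP (Mc_add hP (Mc_mul_left hP hc hX) (Mc_mul_right hP hc hX))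
      (Mc_mul_right hP hc hc.1)
  · exact MM_sub hP (MM_mul hX hX) MM_one

theorem key [Nontrivial K] (hP : Filt P) {T0 A1 C1 : K →L[ℂ] K} (hT0 : T0 ∈ MM P)
    (hsa : star T0 = T0) (hA : A1 ∈ I0 P) (hC : C1 ∈ Mc P) (h : T0 * T0 - 1 = A1 + C1)
    (hap : ∀ ε : ℝ, 0 < ε → ∃ S ∈ MM P, IsSelfAdjoint S ∧ (spectrum ℂ S).Finite ∧
      ‖T0 - S‖ < ε) (ρ : ℝ) (hρ : 0 < ρ) :
    ∃ G k r : K →L[ℂ] K, IsUnit G ∧ IsCompactOperator k ∧ ‖r‖ ≤ ρ ∧
      1 + A1 * ps T0 = G + k + r := by
  -- continuity of `ph` at `T0`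
  obtain ⟨η, hη, hη'⟩ : ∃ η : ℝ, 0 < η ∧ ∀ d : K →L[ℂ] K, ‖d‖ < η →
      ‖ph (T0 + d) - ph T0‖ ≤ ρ / 2 := by
    have hca : ContinuousAt (ph : (K →L[ℂ] K) → (K →L[ℂ] K)) T0 := ph_cont.continuousAt
    obtain ⟨η, hη, h⟩ := Metric.continuousAt_iff.1 hca (ρ / 2) (by positivity)
    refine ⟨η, hη, fun d hd => ?_⟩
    have := h (x := T0 + d) (by rwa [dist_eq_norm, add_sub_cancel_left])
    rw [dist_eq_norm] at this
    exact this.le
  set t := ‖T0‖ with ht
  have ht0 : 0 ≤ t := norm_nonneg _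
  set δ : ℝ := min 1 (η / (4 * (2 * t + 3))) with hδ
  have hδ0 : 0 < δ := by positivity
  have hδ1 : δ ≤ 1 := min_le_left _ _
  have hδ2 : δ * (4 * (2 * t + 3)) ≤ η := by
    have := min_le_right 1 (η / (4 * (2 * t + 3)))
    rwa [le_div_iff₀ (by positivity)] at this
  obtain ⟨S, hSM, hSsa, hSfin, hSn⟩ := hap δ hδ0
  have hfin : (spectrum ℝ S).Finite := by
    have : (algebraMap ℝ ℂ) ⁻¹' (spectrum ℂ S) = spectrum ℝ S :=
      spectrum.preimage_algebraMap ℂ
    rw [← this]
    exact hSfin.preimage (by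
      intro x _ y _ hxy
      exact Complex.ofReal_injective hxy)
  obtain ⟨c0, hc0, hc0'⟩ := (Set.Ioo_infinite (show -δ < δ by linarith)).exists_notMem_finite hfin
  have hcn : |c0| < δ := abs_lt.2 hc0
  have hco : ∀ f : ℝ → ℝ, ContinuousOn f (spectrum ℝ S) := fun f => hfin.continuousOn f
  set f : ℝ → ℝ := fun x => if x < c0 then -1 else 1 with hf
  set g : ℝ → ℝ := fun x => 1 / (1 + |x - c0|) with hg
  set F := cfc f S with hF
  set G1 := cfc g S with hG1
  have hFM : F ∈ MM P := cfc_MM hP hSM hSsa hfin f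
  have hGM : G1 ∈ MM P := cfc_MM hP hSM hSsa hfin g
  have hFs : star F = F := by
    have : IsSelfAdjoint (cfc f S) := cfc_predicate f S
    exact this
  have hFF : F * F = 1 := by
    rw [hF, ← cfc_mul f f S (hco f) (hco f)]
    have : (fun x => f x * f x) = fun _ => (1 : ℝ) := by
      funext x
      simp only [hf]
      split_ifs <;> norm_num
    rw [this, cfc_const_one ℝ S]
  have hFn : ‖F‖ ≤ 1 := by
    refine norm_cfc_le zero_le_one fun x _ => ?_
    simp only [hf]
    split_ifs <;> simp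
  have hGn : ‖G1‖ ≤ 1 := by
    refine norm_cfc_le zero_le_one fun x _ => ?_
    simp only [hg]
    rw [Real.norm_eq_abs, abs_of_nonneg (by positivity), div_le_one (by positivity)]
    linarith [abs_nonneg (x - c0)]
  set S' : K →L[ℂ] K := S - (c0 : ℂ) • 1 with hS'
  have hS'c : S' = cfc (fun x => x - c0) S := by
    rw [cfc_sub (fun x => x) (fun _ => c0) S (hco _) (hco _), cfc_id' ℝ S, cfc_const c0 S, hS',
      Algebra.algebraMap_eq_smul_one]
    rfl
  have hId : F - S' = F * (1 - S' * S') * G1 := by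
    have e1 : F - S' = cfc (fun x => f x - (x - c0)) S := by
      rw [cfc_sub f _ S (hco _) (hco _), hS'c]
    have e2 : F * (1 - S' * S') * G1 =
        cfc (fun x => f x * (1 - (x - c0) * (x - c0)) * g x) S := by
      rw [cfc_mul _ _ S (hco _) (hco _), cfc_mul _ _ S (hco _) (hco _),
        cfc_sub _ _ S (hco _) (hco _), cfc_mul _ _ S (hco _) (hco _), cfc_const_one ℝ S, hS'c]
    rw [e1, e2]
    refine cfc_congr fun x _ => ?_
    simp only [hf, hg]
    have hpos : 0 < 1 + |x - c0| := by positivity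
    by_cases hx : x < c0
    · simp only [hx, if_true]
      rw [abs_of_neg (by linarith : x - c0 < 0)] at hpos ⊢
      field_simp
      ring
    · simp only [hx, if_false]
      rw [abs_of_nonneg (by linarith : 0 ≤ x - c0)] at hpos ⊢
      field_simp
      ring
  have hST : ‖T0 - S'‖ ≤ 2 * δ := by
    have : T0 - S' = (T0 - S) + (c0 : ℂ) • 1 := by rw [hS']; abel
    rw [this]
    refine (norm_add_le _ _).trans ?_
    have h2 : ‖((c0 : ℂ) • 1 : K →L[ℂ] K)‖ ≤ |c0| := by
      rw [norm_smul]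
      calc _ ≤ ‖(c0 : ℂ)‖ * 1 := by gcongr; exact ContinuousLinearMap.norm_id_le
        _ = |c0| := by simp
    linarith
  have hS'n : ‖S'‖ ≤ t + 2 * δ := by
    have : S' = T0 - (T0 - S') := by abel
    rw [this]
    exact (norm_sub_le _ _).trans (by linarith)
  have hS'M : S' ∈ MM P := MM_sub hP hSM (MM_smul _ MM_one)
  set d0 : K →L[ℂ] K := T0 * T0 - S' * S' with hd0
  have hd0n : ‖d0‖ ≤ 2 * δ * (2 * t + 2 * δ) := by
    have : d0 = T0 * (T0 - S') + (T0 - S') * S' := by rw [hd0]; noncomm_ring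
    rw [this]
    calc _ ≤ ‖T0 * (T0 - S')‖ + ‖(T0 - S') * S'‖ := norm_add_le _ _
      _ ≤ ‖T0‖ * ‖T0 - S'‖ + ‖T0 - S'‖ * ‖S'‖ := by gcongr <;> exact norm_mul_le _ _
      _ ≤ t * (2 * δ) + (2 * δ) * (t + 2 * δ) := by gcongr
      _ = _ := by ring
  -- the decomposition of `F - T0`
  set d : K →L[ℂ] K := re' ((S' - T0) + F * d0 * G1) with hd
  set a : K →L[ℂ] K := re' (-(F * A1 * G1)) with ha
  set c : K →L[ℂ] K := re' (-(F * C1 * G1)) with hc
  have hdec : F - T0 = a + c + d := by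
    have e : F - T0 = (-(F * A1 * G1)) + (-(F * C1 * G1)) + ((S' - T0) + F * d0 * G1) := by
      have e1 : F - T0 = (F - S') + (S' - T0) := by abel
      have e2 : (1 : K →L[ℂ] K) - S' * S' = - (A1 + C1) + d0 := by rw [← h, hd0]; abel
      rw [e1, hId, e2]
      noncomm_ring
    have e3 : re' (F - T0) = F - T0 := re'_eq (by rw [star_sub, hFs, hsa])
    rw [← e3, e, re'_add, re'_add]
  have haI : a ∈ I0 P := re'_I0 hP (I0_neg (I0_mul_right hP (I0_mul_left hP hA hFM) hGM))
  have hcM : c ∈ Mc P := re'_Mc hP (Mc_neg (Mc_mul_right hP (Mc_mul_left hP hC hFM) hGM))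
  have hdn : ‖d‖ < η := by
    calc ‖d‖ ≤ ‖(S' - T0) + F * d0 * G1‖ := re'_norm _
      _ ≤ ‖S' - T0‖ + ‖F * d0 * G1‖ := norm_add_le _ _
      _ ≤ 2 * δ + 1 * (2 * δ * (2 * t + 2 * δ)) * 1 := by
          gcongr
          · rw [norm_sub_rev]; exact hST
          · refine (norm_mul_le _ _).trans ?_
            gcongr
            refine (norm_mul_le _ _).trans ?_
            gcongr
      _ < η := by nlinarith
  have hdM : d ∈ MM P := by
    have : d = F - T0 - a - c := by rw [hdec]; abel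
    rw [this]
    exact MM_sub hP (MM_sub hP (MM_sub hP hFM hT0) (I0_sub_MM hP haI)) hcM.1
  set T2 : K →L[ℂ] K := F - a with hT2
  have hT2e : T2 = (T0 + d) + c := by
    have : F = T0 + (a + c + d) := by rw [← hdec]; abel
    rw [hT2, this]; abel
  have hT2sa : star T2 = T2 := by rw [hT2, star_sub, hFs, ha, re'_sa]
  have hT2M : T2 ∈ MM P := MM_sub hP hFM (I0_sub_MM hP haI)
  have hu : IsUnit (ph T2) := ph_unit hT2sa
  -- `ph T2 - 1 ∈ I0`
  have h1 : ph T2 - 1 ∈ I0 P := by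
    have : ph T2 - 1 = (a * a - F * a - a * F) * ps T2 := by
      have : T2 * T2 - 1 = a * a - F * a - a * F := by
        rw [hT2, sub_mul, mul_sub, mul_sub, hFF]; abel
      rw [ph, this]; abel
    rw [this]
    refine I0_mul_right hP ?_ (ps_MM hP hT2M)
    exact I0_sub hP (I0_sub hP (I0_mul hP haI haI) (I0_mul_left hP haI hFM))
      (I0_mul_right hP haI hFM)
  set Y : K →L[ℂ] K := 1 + A1 * ps T0 with hY
  have hY1 : ph T0 - Y ∈ Mc P := by
    have : ph T0 - Y = C1 * ps T0 := by rw [hY, ph, h, add_mul]; abel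
    rw [this]
    exact Mc_mul_right hP hC (ps_MM hP hT0)
  have hI : ph T2 - Y ∈ I0 P := by
    have : ph T2 - Y = (ph T2 - 1) - A1 * ps T0 := by rw [hY]; abel
    rw [this]
    exact I0_sub hP h1 (I0_mul_right hP hA (ps_MM hP hT0))
  set r1 : K →L[ℂ] K := ph (T0 + d) - ph T0 with hr1
  have hr1n : ‖r1‖ ≤ ρ / 2 := hη' d hdn
  set Z : K →L[ℂ] K := (ph T2 - ph (T0 + d)) + (ph T0 - Y) with hZ
  have hZM : Z ∈ Mc P := by
    refine Mc_add hP ?_ hY1
    rw [hT2e]
    exact ph_Mc hP (MM_add hP hT0 hdM) hcM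
  have hZe : ph T2 - Y = Z + r1 := by rw [hZ, hr1]; abel
  obtain ⟨N, hN⟩ := I0_corner hP hI (ρ / 2) (by positivity)
  set r2 : K →L[ℂ] K := (ph T2 - Y) - P N * (ph T2 - Y) * P N with hr2
  refine ⟨ph T2, -(P N * (Z * P N)), -(P N * r1 * P N + r2), hu, ?_, ?_, ?_⟩
  · have := cpt_smul (-1) (cpt_mul_left (hZM.2 N).1 (P N))
    rwa [neg_one_smul] at this
  · rw [norm_neg]
    calc _ ≤ ‖P N * r1 * P N‖ + ‖r2‖ := norm_add_le _ _
      _ ≤ 1 * (ρ / 2) * 1 + ρ / 2 := by
          gcongr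
          refine (norm_mul_le _ _).trans ?_
          gcongr
          · refine (norm_mul_le _ _).trans ?_
            gcongr
            exact hP.nrm N
          · exact hP.nrm N
      _ = ρ := by ring
  · have e : Y = ph T2 - (ph T2 - Y) := by abel
    have e2 : ph T2 - Y = P N * (ph T2 - Y) * P N + r2 := by rw [hr2]; abel
    rw [e, e2]
    conv_lhs => rw [hZe]
    noncomm_ring

end Pool.Agent.H231R3
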