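import Mathlib

set_option autoImplicit false
set_option linter.unusedSectionVars false
set_option linter.unusedVariables false

open scoped InnerProductSpace ENNReal Topology

namespace Pool.Agent.H231R3

universe u

variable {K : Type u} [NormedAddCommGroup K] [InnerProductSpace ℂ K] [CompleteSpace K]

/-- an increasing sequence of projections -/
structure Filt (P : ℕ → (K →L[ℂ] K)) : Prop where
  sa : ∀ n, star (P n) = P n
  mul : ∀ m n, m ≤ n → P m * P n = P m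
  nrm : ∀ n, ‖P n‖ ≤ 1
  nrm' : ∀ n, ‖1 - P n‖ ≤ 1

namespace Filt

variable {P : ℕ → (K →L[ℂ] K)} (hP : Filt P)

include hP

theorem mul' (m n : ℕ) (h : m ≤ n) : P n * P m = P m := by
  have := congrArg star (hP.mul m n h)
  rwa [star_mul, hP.sa, hP.sa] at this

theorem comp_mul (m n : ℕ) (h : m ≤ n) : (1 - P n) * (1 - P m) = 1 - P n := by
  have h1 : (1 - P n) * P m = 0 := by rw [sub_mul, one_mul, hP.mul' m n h, sub_self]
  rw [mul_sub, mul_one, h1, sub_zero]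

theorem comp_P (m n : ℕ) (h : m ≤ n) : (1 - P n) * P m = 0 := by
  rw [sub_mul, one_mul, hP.mul' m n h, sub_self]

end Filt

/-- the ideal of operators which are norm limits of their corners -/
def I0 (P : ℕ → (K →L[ℂ] K)) : Set (K →L[ℂ] K) :=
  {S | ∀ ε : ℝ, 0 < ε → ∃ N : ℕ, ‖(1 - P N) * S‖ ≤ ε ∧ ‖(1 - P N) * star S‖ ≤ ε}

/-- its multipliers -/
def MM (P : ℕ → (K →L[ℂ] K)) : Set (K →L[ℂ] K) :=
  {T | ∀ S ∈ I0 P, T * S ∈ I0 P ∧ S * T ∈ I0 P}

variable {P : ℕ → (K →L[ℂ] K)}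

theorem Filt.mono (hP : Filt P) {S : K →L[ℂ] K} {m n : ℕ} (h : m ≤ n) :
    ‖(1 - P n) * S‖ ≤ ‖(1 - P m) * S‖ := by
  rw [← hP.comp_mul m n h, mul_assoc]
  calc ‖(1 - P n) * ((1 - P m) * S)‖ ≤ ‖1 - P n‖ * ‖(1 - P m) * S‖ := norm_mul_le _ _
    _ ≤ 1 * ‖(1 - P m) * S‖ := by gcongr; exact hP.nrm' n
    _ = _ := one_mul _

theorem I0_star {S : K →L[ℂ] K} (h : S ∈ I0 P) : star S ∈ I0 P := by
  intro ε hε
  obtain ⟨N, h1, h2⟩ := h ε hε
  exact ⟨N, h2, by rwa [star_star]⟩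

theorem I0_add (hP : Filt P) {S T : K →L[ℂ] K} (hS : S ∈ I0 P) (hT : T ∈ I0 P) :
    S + T ∈ I0 P := by
  intro ε hε
  obtain ⟨N, h1, h2⟩ := hS (ε / 2) (by positivity)
  obtain ⟨N', h1', h2'⟩ := hT (ε / 2) (by positivity)
  refine ⟨max N N', ?_, ?_⟩
  · rw [mul_add]
    refine (norm_add_le _ _).trans ?_
    have a := (hP.mono (S := S) (le_max_left N N')).trans h1
    have b := (hP.mono (S := T) (le_max_right N N')).trans h1'
    linarith
  · rw [star_add, mul_add]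
    refine (norm_add_le _ _).trans ?_
    have a := (hP.mono (S := star S) (le_max_left N N')).trans h2
    have b := (hP.mono (S := star T) (le_max_right N N')).trans h2'
    linarith

theorem I0_smul {S : K →L[ℂ] K} (c : ℂ) (hS : S ∈ I0 P) : c • S ∈ I0 P := by
  intro ε hε
  obtain ⟨N, h1, h2⟩ := hS (ε / (‖c‖ + 1)) (by positivity)
  have hc : ‖c‖ * (ε / (‖c‖ + 1)) ≤ ε := by
    rw [mul_div_assoc', div_le_iff₀ (by positivity)]
    nlinarith [norm_nonneg c]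
  refine ⟨N, ?_, ?_⟩
  · rw [mul_smul_comm, norm_smul]
    exact (mul_le_mul_of_nonneg_left h1 (norm_nonneg _)).trans hc
  · rw [star_smul, mul_smul_comm, norm_smul, norm_star]
    exact (mul_le_mul_of_nonneg_left h2 (norm_nonneg _)).trans hc

theorem I0_neg {S : K →L[ℂ] K} (hS : S ∈ I0 P) : -S ∈ I0 P := by
  have := I0_smul (-1) hS
  rwa [neg_one_smul] at this

theorem I0_sub (hP : Filt P) {S T : K →L[ℂ] K} (hS : S ∈ I0 P) (hT : T ∈ I0 P) :
    S - T ∈ I0 P := by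
  rw [sub_eq_add_neg]
  exact I0_add hP hS (I0_neg hT)

theorem I0_zero : (0 : K →L[ℂ] K) ∈ I0 P := by
  intro ε hε
  exact ⟨0, by simp [hε.le], by simp [hε.le]⟩

theorem P_mem (hP : Filt P) (n : ℕ) : P n ∈ I0 P := by
  intro ε hε
  refine ⟨n, ?_, ?_⟩
  · rw [hP.comp_P n n le_rfl]; simp [hε.le]
  · rw [hP.sa, hP.comp_P n n le_rfl]; simp [hε.le]

theorem I0_mul {S T : K →L[ℂ] K} (hP : Filt P) (hS : S ∈ I0 P) (hT : T ∈ I0 P) :
    S * T ∈ I0 P := by
  intro ε hε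
  obtain ⟨N, h1, -⟩ := hS (ε / (‖T‖ + 1)) (by positivity)
  obtain ⟨N', -, h2⟩ := hT (ε / (‖S‖ + 1)) (by positivity)
  refine ⟨max N N', ?_, ?_⟩
  · rw [← mul_assoc]
    calc ‖(1 - P (max N N')) * S * T‖ ≤ ‖(1 - P (max N N')) * S‖ * ‖T‖ := norm_mul_le _ _
      _ ≤ (ε / (‖T‖ + 1)) * ‖T‖ := by
          gcongr
          exact (hP.mono (le_max_left _ _)).trans h1
      _ ≤ ε := by
          rw [div_mul_eq_mul_div, div_le_iff₀ (by positivity)]
          nlinarith [norm_nonneg T]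
  · rw [star_mul, ← mul_assoc]
    calc ‖(1 - P (max N N')) * star T * star S‖
        ≤ ‖(1 - P (max N N')) * star T‖ * ‖star S‖ := norm_mul_le _ _
      _ ≤ (ε / (‖S‖ + 1)) * ‖S‖ := by
          rw [norm_star]
          gcongr
          exact (hP.mono (le_max_right _ _)).trans h2
      _ ≤ ε := by
          rw [div_mul_eq_mul_div, div_le_iff₀ (by positivity)]
          nlinarith [norm_nonneg S]

theorem I0_sub_MM (hP : Filt P) {S : K →L[ℂ] K} (hS : S ∈ I0 P) : S ∈ MM P :=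
  fun _ hT => ⟨I0_mul hP hS hT, I0_mul hP hT hS⟩

theorem MM_mul {S T : K →L[ℂ] K} (hS : S ∈ MM P) (hT : T ∈ MM P) : S * T ∈ MM P := by
  intro X hX
  refine ⟨?_, ?_⟩
  · rw [mul_assoc]; exact (hS _ (hT _ hX).1).1
  · rw [← mul_assoc]; exact (hT _ (hS _ hX).2).2

theorem MM_add (hP : Filt P) {S T : K →L[ℂ] K} (hS : S ∈ MM P) (hT : T ∈ MM P) :
    S + T ∈ MM P := by
  intro X hX
  rw [add_mul, mul_add]
  exact ⟨I0_add hP (hS _ hX).1 (hT _ hX).1, I0_add hP (hS _ hX).2 (hT _ hX).2⟩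

theorem MM_smul {S : K →L[ℂ] K} (c : ℂ) (hS : S ∈ MM P) : c • S ∈ MM P := by
  intro X hX
  rw [smul_mul_assoc, mul_smul_comm]
  exact ⟨I0_smul c (hS _ hX).1, I0_smul c (hS _ hX).2⟩

theorem MM_neg {S : K →L[ℂ] K} (hS : S ∈ MM P) : -S ∈ MM P := by
  have := MM_smul (-1) hS
  rwa [neg_one_smul] at this

theorem MM_sub (hP : Filt P) {S T : K →L[ℂ] K} (hS : S ∈ MM P) (hT : T ∈ MM P) :
    S - T ∈ MM P := by
  rw [sub_eq_add_neg]
  exact MM_add hP hS (MM_neg hT)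

theorem MM_one : (1 : K →L[ℂ] K) ∈ MM P := by
  intro X hX
  rw [one_mul, mul_one]
  exact ⟨hX, hX⟩

theorem MM_star {S : K →L[ℂ] K} (hS : S ∈ MM P) : star S ∈ MM P := by
  intro X hX
  refine ⟨?_, ?_⟩
  · have := I0_star (hS _ (I0_star hX)).2
    rwa [star_mul, star_star] at this
  · have := I0_star (hS _ (I0_star hX)).1
    rwa [star_mul, star_star] at this

theorem MM_pow {S : K →L[ℂ] K} (hS : S ∈ MM P) (n : ℕ) : S ^ n ∈ MM P := by
  induction n with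
  | zero => rw [pow_zero]; exact MM_one
  | succ n ih => rw [pow_succ]; exact MM_mul ih hS

theorem MM_tail (hP : Filt P) {T : K →L[ℂ] K} (hT : T ∈ MM P) (N : ℕ) (ε : ℝ) (hε : 0 < ε) :
    ∃ L, ∀ L', L ≤ L' → ‖(1 - P L') * (T * P N)‖ ≤ ε := by
  obtain ⟨L, h1, -⟩ := (hT _ (P_mem hP N)).1 ε hε
  exact ⟨L, fun L' h => (hP.mono h).trans h1⟩

/-- operators in `MM` with compact corners -/
def Mc (P : ℕ → (K →L[ℂ] K)) : Set (K →L[ℂ] K) :=
  {T | T ∈ MM P ∧ ∀ N, IsCompactOperator (T * P N) ∧ IsCompactOperator (star T * P N)}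

theorem cpt_mul_left {T : K →L[ℂ] K} (hT : IsCompactOperator T) (S : K →L[ℂ] K) :
    IsCompactOperator (S * T : K →L[ℂ] K) := hT.clm_comp S

theorem cpt_mul_right {T : K →L[ℂ] K} (hT : IsCompactOperator T) (S : K →L[ℂ] K) :
    IsCompactOperator (T * S : K →L[ℂ] K) := hT.comp_clm S

theorem cpt_add {S T : K →L[ℂ] K} (hS : IsCompactOperator S) (hT : IsCompactOperator T) :
    IsCompactOperator (S + T : K →L[ℂ] K) := hS.add hT

theorem cpt_sub {S T : K →L[ℂ] K} (hS : IsCompactOperator S) (hT : IsCompactOperator T) :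
    IsCompactOperator (S - T : K →L[ℂ] K) := hS.sub hT

theorem cpt_smul {S : K →L[ℂ] K} (c : ℂ) (hS : IsCompactOperator S) :
    IsCompactOperator (c • S : K →L[ℂ] K) := hS.smul c

theorem cpt_zero : IsCompactOperator (0 : K →L[ℂ] K) := isCompactOperator_zero

theorem cpt_closed : IsClosed {T : K →L[ℂ] K | IsCompactOperator T} :=
  isClosed_setOfPred_isCompactOperator

/-- approximation criterion for compactness -/
theorem cpt_of_approx {T : K →L[ℂ] K}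
    (h : ∀ ε : ℝ, 0 < ε → ∃ S : K →L[ℂ] K, IsCompactOperator S ∧ ‖T - S‖ ≤ ε) :
    IsCompactOperator T := by
  have : T ∈ closure {T : K →L[ℂ] K | IsCompactOperator T} := by
    rw [Metric.mem_closure_iff]
    intro ε hε
    obtain ⟨S, hS, h1⟩ := h (ε / 2) (by positivity)
    exact ⟨S, hS, by rw [dist_eq_norm]; linarith⟩
  rwa [cpt_closed.closure_eq] at this

theorem Mc_cpt_mul (hP : Filt P) {T X : K →L[ℂ] K} (hT : ∀ N, IsCompactOperator (T * P N))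
    (hX : X ∈ MM P) (N : ℕ) : IsCompactOperator (T * X * P N : K →L[ℂ] K) := by
  refine cpt_of_approx fun ε hε => ?_
  obtain ⟨L, hL⟩ := MM_tail hP hX N (ε / (‖T‖ + 1)) (by positivity)
  refine ⟨T * P L * (X * P N), cpt_mul_right (hT L) _, ?_⟩
  have : T * X * P N - T * P L * (X * P N) = T * ((1 - P L) * (X * P N)) := by
    noncomm_ring
  rw [this]
  calc ‖T * ((1 - P L) * (X * P N))‖ ≤ ‖T‖ * ‖(1 - P L) * (X * P N)‖ := norm_mul_le _ _
    _ ≤ ‖T‖ * (ε / (‖T‖ + 1)) := by gcongr; exact hL L le_rfl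
    _ ≤ ε := by
      rw [mul_div_assoc', div_le_iff₀ (by positivity)]
      nlinarith [norm_nonneg T]

theorem Mc_mul_right (hP : Filt P) {T X : K →L[ℂ] K} (hT : T ∈ Mc P) (hX : X ∈ MM P) :
    T * X ∈ Mc P := by
  refine ⟨MM_mul hT.1 hX, fun N => ⟨Mc_cpt_mul hP (fun N => (hT.2 N).1) hX N, ?_⟩⟩
  rw [star_mul, mul_assoc]
  exact cpt_mul_left (hT.2 N).2 _

theorem Mc_star {T : K →L[ℂ] K} (hT : T ∈ Mc P) : star T ∈ Mc P :=
  ⟨MM_star hT.1, fun N => ⟨(hT.2 N).2, by rw [star_star]; exact (hT.2 N).1⟩⟩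

theorem Mc_mul_left (hP : Filt P) {T X : K →L[ℂ] K} (hT : T ∈ Mc P) (hX : X ∈ MM P) :
    X * T ∈ Mc P := by
  have := Mc_star (Mc_mul_right hP (Mc_star hT) (MM_star hX))
  rwa [star_mul, star_star, star_star] at this

theorem Mc_add (hP : Filt P) {S T : K →L[ℂ] K} (hS : S ∈ Mc P) (hT : T ∈ Mc P) :
    S + T ∈ Mc P := by
  refine ⟨MM_add hP hS.1 hT.1, fun N => ⟨?_, ?_⟩⟩
  · rw [add_mul]; exact cpt_add (hS.2 N).1 (hT.2 N).1
  · rw [star_add, add_mul]; exact cpt_add (hS.2 N).2 (hT.2 N).2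

theorem Mc_smul {S : K →L[ℂ] K} (c : ℂ) (hS : S ∈ Mc P) : c • S ∈ Mc P := by
  refine ⟨MM_smul c hS.1, fun N => ⟨?_, ?_⟩⟩
  · rw [smul_mul_assoc]; exact cpt_smul _ (hS.2 N).1
  · rw [star_smul, smul_mul_assoc]; exact cpt_smul _ (hS.2 N).2

theorem Mc_neg {S : K →L[ℂ] K} (hS : S ∈ Mc P) : -S ∈ Mc P := by
  have := Mc_smul (-1) hS
  rwa [neg_one_smul] at this

theorem Mc_sub (hP : Filt P) {S T : K →L[ℂ] K} (hS : S ∈ Mc P) (hT : T ∈ Mc P) :
    S - T ∈ Mc P := by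
  rw [sub_eq_add_neg]
  exact Mc_add hP hS (Mc_neg hT)

theorem I0_mul_right (hP : Filt P) {S T : K →L[ℂ] K} (hS : S ∈ I0 P) (hT : T ∈ MM P) :
    S * T ∈ I0 P := (hT _ hS).2

theorem I0_mul_left (hP : Filt P) {S T : K →L[ℂ] K} (hS : S ∈ I0 P) (hT : T ∈ MM P) :
    T * S ∈ I0 P := (hT _ hS).1

/-- an element of `I0` is approximated by its corners -/
theorem I0_corner (hP : Filt P) {X : K →L[ℂ] K} (hX : X ∈ I0 P) (ε : ℝ) (hε : 0 < ε) :
    ∃ N, ‖X - P N * X * P N‖ ≤ ε := by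
  obtain ⟨N, h1, h2⟩ := hX (ε / 2) (by positivity)
  refine ⟨N, ?_⟩
  have e : X - P N * X * P N = (1 - P N) * X + P N * (X * (1 - P N)) := by noncomm_ring
  have e2 : ‖X * (1 - P N)‖ ≤ ε / 2 := by
    rw [← norm_star, star_mul, star_sub, star_one, hP.sa]
    exact h2
  rw [e]
  calc _ ≤ ‖(1 - P N) * X‖ + ‖P N * (X * (1 - P N))‖ := norm_add_le _ _
    _ ≤ ε / 2 + ‖P N‖ * ‖X * (1 - P N)‖ := by gcongr; exact norm_mul_le _ _
    _ ≤ ε / 2 + 1 * (ε / 2) := by gcongr; exact hP.nrm N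
    _ = ε := by ring

theorem MM_of_band (hP : Filt P) {T : K →L[ℂ] K}
    (h : ∀ N, ∃ L, (1 - P L) * (T * P N) = 0 ∧ (1 - P L) * (star T * P N) = 0) :
    T ∈ MM P := by
  have key : ∀ T : K →L[ℂ] K, (∀ N, ∃ L, (1 - P L) * (T * P N) = 0) →
      ∀ S ∈ I0 P, T * S ∈ I0 P := by
    intro T hT S hS ε hε
    obtain ⟨N, h1, h2⟩ := hS (ε / (‖T‖ + 1)) (by positivity)
    obtain ⟨L, hL⟩ := hT N
    have hε' : ‖T‖ * (ε / (‖T‖ + 1)) ≤ ε := by
      rw [mul_div_assoc', div_le_iff₀ (by positivity)]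
      nlinarith [norm_nonneg T]
    refine ⟨max N L, ?_, ?_⟩
    · have e : (1 - P (max N L)) * (T * S) =
          (1 - P (max N L)) * ((1 - P L) * (T * P N)) * S +
          (1 - P (max N L)) * (T * ((1 - P N) * S)) := by
        rw [← mul_assoc (1 - P (max N L)) (1 - P L), hP.comp_mul L _ (le_max_right _ _)]
        noncomm_ring
      rw [e, hL, mul_zero, zero_mul, zero_add]
      calc _ ≤ ‖1 - P (max N L)‖ * ‖T * ((1 - P N) * S)‖ := norm_mul_le _ _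
        _ ≤ 1 * (‖T‖ * ‖(1 - P N) * S‖) := by
            gcongr
            · exact hP.nrm' _
            · exact norm_mul_le _ _
        _ ≤ 1 * (‖T‖ * (ε / (‖T‖ + 1))) := by gcongr
        _ ≤ ε := by rw [one_mul]; exact hε'
    · rw [star_mul, ← mul_assoc]
      calc _ ≤ ‖(1 - P (max N L)) * star S‖ * ‖star T‖ := norm_mul_le _ _
        _ ≤ (ε / (‖T‖ + 1)) * ‖T‖ := by
            rw [norm_star]
            gcongr
            exact (hP.mono (le_max_left _ _)).trans h2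
        _ ≤ ε := by rw [mul_comm]; exact hε'
  intro S hS
  refine ⟨key T (fun N => (h N).imp fun L hL => hL.1) S hS, ?_⟩
  have := I0_star (key (star T) (fun N => (h N).imp fun L hL => hL.2) (star S) (I0_star hS))
  rwa [star_mul, star_star, star_star] at this

/-- Fredholm alternative: if `U X` is invertible and `X` is a compact perturbation of an invertible
operator then `U` is invertible. -/
theorem fred {G k U : K →L[ℂ] K} (hG : IsUnit G) (hk : IsCompactOperator k)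
    (hU : IsUnit (U * (G + k))) : IsUnit U := by
  obtain ⟨g, rfl⟩ := hG
  set k3 : K →L[ℂ] K := -((↑g⁻¹ : K →L[ℂ] K) * k) with hk3
  have hk3c : IsCompactOperator k3 := by
    have := cpt_smul (-1) (cpt_mul_left hk (↑g⁻¹ : K →L[ℂ] K))
    rwa [neg_one_smul] at this
  have hX : (g : K →L[ℂ] K) + k = g * (1 - k3) := by
    rw [hk3, sub_neg_eq_add, mul_add, mul_one, ← mul_assoc, Units.mul_inv, one_mul]
  have hres : (1 : ℂ) ∈ resolventSet ℂ k3 := by
    refine (hk3c.hasEigenvalue_or_mem_resolventSet one_ne_zero).resolve_left ?_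
    intro hev
    obtain ⟨v, hv⟩ := hev.exists_hasEigenvector
    have h1 : k3 v = v := by
      have := hv.apply_eq_smul
      simpa using this
    have h2 : (U * ((g : K →L[ℂ] K) + k)) v = 0 := by
      rw [hX]
      have : (1 - k3) v = 0 := by
        rw [sub_apply, one_apply_eq_self, h1, sub_self]
      rw [mul_apply_eq_comp, mul_apply_eq_comp, this, map_zero, map_zero]
    obtain ⟨w, hw⟩ := hU
    have h3 : ((↑w⁻¹ : K →L[ℂ] K) * ((U * ((g : K →L[ℂ] K) + k)))) v = v := by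
      rw [← hw, Units.inv_mul, one_apply_eq_self]
    rw [mul_apply_eq_comp, h2, map_zero] at h3
    exact hv.2 h3.symm
  rw [spectrum.mem_resolventSet_iff, map_one] at hres
  have hXu : IsUnit ((g : K →L[ℂ] K) + k) := by
    rw [hX]
    exact (Units.isUnit g).mul hres
  obtain ⟨y, hy⟩ := hXu
  have : U = (U * ((g : K →L[ℂ] K) + k)) * (↑y⁻¹ : K →L[ℂ] K) := by
    rw [mul_assoc, ← hy, Units.mul_inv, mul_one]
  rw [this]
  exact hU.mul (Units.isUnit _)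

theorem final_abs {Y Y' Wh U D kc : K →L[ℂ] K}
    (hkey : ∀ ρ : ℝ, 0 < ρ → ∃ G k r : K →L[ℂ] K, IsUnit G ∧ IsCompactOperator k ∧ ‖r‖ ≤ ρ ∧
      Y = G + k + r)
    (hW : Wh * Wh = 1) (hY' : Y' = Wh * Y * Wh) (hprod : U * (Y * Y') = 1 + D + U * kc)
    (hkc : IsCompactOperator kc) (hD : ‖D‖ ≤ 1 / 2) {x : K} (hx : x ≠ 0) (hUx : U x = 0) :
    False := by
  set w := ‖Wh‖ with hw
  have hw0 : 0 ≤ w := norm_nonneg _
  set Q : ℝ := (‖U‖ + 1) * (‖Y'‖ + ‖Y‖ * w ^ 2 + w ^ 2 + 1) with hQ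
  have hQ1 : 0 < Q := by positivity
  set ρ : ℝ := min 1 (1 / (4 * Q)) with hρ
  have hρ0 : 0 < ρ := by positivity
  have hρ1 : ρ ≤ 1 := min_le_left _ _
  have hρ2 : ρ * Q ≤ 1 / 4 := by
    have := min_le_right 1 (1 / (4 * Q))
    rw [← hρ, le_div_iff₀ (by positivity)] at this
    linarith
  obtain ⟨G, k, r, hG, hk, hr, hYe⟩ := hkey ρ hρ0
  have hWu : IsUnit Wh := ⟨⟨Wh, Wh, hW, hW⟩, rfl⟩
  set G' : K →L[ℂ] K := Wh * G * Wh with hG'
  set k' : K →L[ℂ] K := Wh * k * Wh with hk'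
  set r' : K →L[ℂ] K := Wh * r * Wh with hr'
  have hr'n : ‖r'‖ ≤ ρ * w ^ 2 := by
    calc ‖r'‖ ≤ ‖Wh * r‖ * ‖Wh‖ := norm_mul_le _ _
      _ ≤ (‖Wh‖ * ‖r‖) * ‖Wh‖ := by gcongr; exact norm_mul_le _ _
      _ ≤ (w * ρ) * w := by gcongr
      _ = _ := by ring
  have hY'e : Y' = G' + k' + r' := by
    rw [hY', hYe, hG', hk', hr']; noncomm_ring
  have hG'u : IsUnit G' := (hWu.mul hG).mul hWu
  have hk'c : IsCompactOperator k' := cpt_mul_right (cpt_mul_left hk _) _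
  set s : K →L[ℂ] K := r * Y' + Y * r' - r * r' with hs
  set k2 : K →L[ℂ] K := k * G' + G * k' + k * k' with hk2
  have hk2c : IsCompactOperator k2 :=
    cpt_add (cpt_add (cpt_mul_right hk _) (cpt_mul_left hk'c _)) (cpt_mul_right hk _)
  have e : G * G' + k2 = Y * Y' - s := by
    have e1 : Y - r = G + k := by rw [hYe]; abel
    have e2 : Y' - r' = G' + k' := by rw [hY'e]; abel
    have e3 : Y * Y' - s = (Y - r) * (Y' - r') := by rw [hs]; noncomm_ring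
    rw [e3, e1, e2, hk2]; noncomm_ring
  have hsn : ‖s‖ ≤ ρ * (‖Y'‖ + ‖Y‖ * w ^ 2 + w ^ 2 + 1) := by
    calc ‖s‖ ≤ ‖r * Y' + Y * r'‖ + ‖r * r'‖ := norm_sub_le _ _
      _ ≤ (‖r * Y'‖ + ‖Y * r'‖) + ‖r * r'‖ := by gcongr; exact norm_add_le _ _
      _ ≤ (‖r‖ * ‖Y'‖ + ‖Y‖ * ‖r'‖) + ‖r‖ * ‖r'‖ := by gcongr <;> exact norm_mul_le _ _
      _ ≤ (ρ * ‖Y'‖ + ‖Y‖ * (ρ * w ^ 2)) + 1 * (ρ * w ^ 2) := by
          gcongr
          exact hr.trans hρ1
      _ ≤ _ := by nlinarith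
  have hX : U * (G * G' + (k2 - kc)) = 1 - (U * s - D) := by
    have : G * G' + (k2 - kc) = Y * Y' - s - kc := by rw [← e]; abel
    rw [this, mul_sub, mul_sub, hprod]; abel
  have hsmall : ‖U * s - D‖ < 1 := by
    calc ‖U * s - D‖ ≤ ‖U * s‖ + ‖D‖ := norm_sub_le _ _
      _ ≤ ‖U‖ * ‖s‖ + 1 / 2 := by gcongr; exact norm_mul_le _ _
      _ ≤ (‖U‖ + 1) * (ρ * (‖Y'‖ + ‖Y‖ * w ^ 2 + w ^ 2 + 1)) + 1 / 2 := by
          gcongr
          linarith
      _ = ρ * Q + 1 / 2 := by rw [hQ]; ring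
      _ < 1 := by linarith
  have hunit : IsUnit (U * (G * G' + (k2 - kc))) := by
    rw [hX]
    exact isUnit_one_sub_of_norm_lt_one hsmall
  have hUu := fred (hG.mul hG'u) (cpt_sub hk2c hkc) hunit
  obtain ⟨u, hu⟩ := hUu
  have : ((↑u⁻¹ : K →L[ℂ] K) * U) x = x := by
    rw [← hu, Units.inv_mul, one_apply_eq_self]
  rw [mul_apply_eq_comp, hUx, map_zero] at this
  exact hx this.symm

end Pool.Agent.H231R3
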