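import Pool.Agent.H231R3.Lp
import Pool.Agent.H231R3.Mult

set_option autoImplicit false
set_option linter.unusedSectionVars false
set_option linter.unusedVariables false

open scoped InnerProductSpace ENNReal Topology

namespace Pool.Agent.H231R3

/-- the data on one site -/
structure Site {H : Type} [NormedAddCommGroup H] [InnerProductSpace ℂ H] [CompleteSpace H]
    (V a b c W : H →L[ℂ] H) : Prop where
  sa : star a = a
  sb : star b = b
  sc : star c = c
  bc : b * c = 0
  cb : c * b = 0
  sq : IsCompactOperator (a * a + (b * b + c * c) - 1 : H →L[ℂ] H)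
  ab : IsCompactOperator (a * b - b * a : H →L[ℂ] H)
  ac : IsCompactOperator (a * c - c * a : H →L[ℂ] H)
  sW : star W = W
  WW : W * W = 1
  Wa : W * a * W = -a
  Wc : W * c * W = b
  iso : star V * V = 1
  vv : ∃ D : H →L[ℂ] H, ‖D‖ ≤ 1 / 2 ∧
    1 - (2 : ℂ) • (c * c + b * b) + (2 * Complex.I) • ((b * b - c * c) * a) = V * V + D
  ker : ∃ x : H, x ≠ 0 ∧ star V x = 0

/-- operators which commute with `A` modulo compact operators, together with their adjoints -/
def comA {H : Type} [NormedAddCommGroup H] [InnerProductSpace ℂ H] [CompleteSpace H]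
    (A : H →L[ℂ] H) : StarSubalgebra ℂ (H →L[ℂ] H) where
  carrier := {x | IsCompactOperator (A * x - x * A : H →L[ℂ] H) ∧
    IsCompactOperator (A * star x - star x * A : H →L[ℂ] H)}
  mul_mem' := by
    rintro x y ⟨h1, h2⟩ ⟨h3, h4⟩
    refine ⟨?_, ?_⟩
    · have : A * (x * y) - x * y * A = (A * x - x * A) * y + x * (A * y - y * A) := by
        noncomm_ring
      rw [this]
      exact cpt_add (cpt_mul_right h1 _) (cpt_mul_left h3 _)
    · have : A * star (x * y) - star (x * y) * A =
          (A * star y - star y * A) * star x + star y * (A * star x - star x * A) := by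
        rw [star_mul]
        noncomm_ring
      rw [this]
      exact cpt_add (cpt_mul_right h4 _) (cpt_mul_left h2 _)
  add_mem' := by
    rintro x y ⟨h1, h2⟩ ⟨h3, h4⟩
    refine ⟨?_, ?_⟩
    · have : A * (x + y) - (x + y) * A = (A * x - x * A) + (A * y - y * A) := by
        noncomm_ring
      rw [this]
      exact cpt_add h1 h3
    · have : A * star (x + y) - star (x + y) * A =
          (A * star x - star x * A) + (A * star y - star y * A) := by
        rw [star_add]
        noncomm_ring
      rw [this]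
      exact cpt_add h2 h4
  algebraMap_mem' := by
    intro r
    refine ⟨?_, ?_⟩
    · rw [Algebra.algebraMap_eq_smul_one, mul_smul_comm, smul_mul_assoc, mul_one, one_mul, sub_self]
      exact isCompactOperator_zero
    · rw [Algebra.algebraMap_eq_smul_one, star_smul, star_one, mul_smul_comm, smul_mul_assoc,
        mul_one, one_mul, sub_self]
      exact isCompactOperator_zero
  star_mem' := by
    rintro x ⟨h1, h2⟩
    exact ⟨h2, by rw [star_star]; exact h1⟩

theorem comA_closed {H : Type} [NormedAddCommGroup H] [InnerProductSpace ℂ H] [CompleteSpace H]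
    (A : H →L[ℂ] H) : IsClosed (comA A : Set (H →L[ℂ] H)) := by
  have h1 : IsClosed {x : H →L[ℂ] H | IsCompactOperator (A * x - x * A : H →L[ℂ] H)} :=
    cpt_closed.preimage (f := fun x : H →L[ℂ] H => A * x - x * A) (by fun_prop)
  have h2 : IsClosed {x : H →L[ℂ] H | IsCompactOperator (A * star x - star x * A : H →L[ℂ] H)} :=
    cpt_closed.preimage (f := fun x : H →L[ℂ] H => A * star x - star x * A) (by fun_prop)
  exact h1.inter h2

variable {H : Type} [NormedAddCommGroup H] [InnerProductSpace ℂ H] [CompleteSpace H]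

theorem cfc_comA {A B : H →L[ℂ] H} (h : B ∈ comA A) (f : ℝ → ℝ) : cfc f B ∈ comA A := by
  have := comA_closed A
  exact cfc_mem f h

noncomputable section

variable (V : H →L[ℂ] H)

def a : H →L[ℂ] H := (1 / 2 : ℂ) • (V + star V)
def β : H →L[ℂ] H := (-Complex.I / 2 : ℂ) • (V - star V)
def b : H →L[ℂ] H := cfc (fun x : ℝ => max x 0) (β V)
def c : H →L[ℂ] H := cfc (fun x : ℝ => max (-x) 0) (β V)

theorem a_sa : star (a V) = a V := by
  unfold a
  rw [star_smul, star_add, star_star, add_comm (star V)]
  simp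

theorem β_sa : star (β V) = β V := by
  unfold β
  rw [star_smul, star_sub, star_star, ← neg_sub V, smul_neg, ← neg_smul]
  congr 1
  simp
  ring

theorem β_isa : IsSelfAdjoint (β V) := β_sa V

theorem V_eq : V = a V + Complex.I • β V := by
  unfold a β
  rw [smul_smul]
  have : Complex.I * (-Complex.I / 2) = 1 / 2 := by
    have := Complex.I_mul_I
    linear_combination (-1 / 2 : ℂ) * this
  rw [this, ← smul_add]
  rw [show V + star V + (V - star V) = (2 : ℂ) • V by rw [two_smul]; abel, smul_smul]
  norm_num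

theorem bb_cc : b V * b V + c V * c V = β V * β V := by
  have hβ := β_isa V
  have e1 : b V * b V + c V * c V =
      cfc (fun x : ℝ => max x 0 * max x 0 + max (-x) 0 * max (-x) 0) (β V) := by
    unfold b c
    rw [cfc_add (β V) (fun x : ℝ => max x 0 * max x 0) (fun x : ℝ => max (-x) 0 * max (-x) 0),
      cfc_mul (fun x : ℝ => max x 0) (fun x : ℝ => max x 0) (β V),
      cfc_mul (fun x : ℝ => max (-x) 0) (fun x : ℝ => max (-x) 0) (β V)]
  have e2 : β V * β V = cfc (fun x : ℝ => x * x) (β V) := by
    rw [cfc_mul (fun x : ℝ => x) (fun x : ℝ => x) (β V), cfc_id' ℝ (β V)]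
  rw [e1, e2]
  refine cfc_congr fun x _ => ?_
  rcases le_total x 0 with h | h
  · simp only [max_eq_right h, max_eq_left (by linarith : (0 : ℝ) ≤ -x)]; ring
  · simp only [max_eq_left h, max_eq_right (by linarith : -x ≤ (0 : ℝ))]; ring

theorem V_norm (hV : star V * V = 1) : ‖V‖ ≤ 1 := by
  have h : ‖V‖ * ‖V‖ = ‖star V * V‖ := (CStarRing.norm_star_mul_self).symm
  rw [hV] at h
  have h1 : ‖(1 : H →L[ℂ] H)‖ ≤ 1 := ContinuousLinearMap.norm_id_le
  nlinarith [norm_nonneg V]

theorem a_norm (hV : star V * V = 1) : ‖a V‖ ≤ 1 := by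
  unfold a
  rw [norm_smul]
  have := norm_add_le V (star V)
  have h1 := V_norm V hV
  rw [norm_star] at this
  norm_num
  linarith

theorem β_norm (hV : star V * V = 1) : ‖β V‖ ≤ 1 := by
  unfold β
  rw [norm_smul]
  have := norm_sub_le V (star V)
  have h1 := V_norm V hV
  rw [norm_star] at this
  norm_num
  linarith

theorem diff_norm [Nontrivial H] (hV : star V * V = 1) :
    ‖β V - (b V * b V - c V * c V)‖ ≤ 1 / 4 := by
  have hβ := β_isa V
  have e : β V - (b V * b V - c V * c V) =
      cfc (fun x : ℝ => x - (max x 0 * max x 0 - max (-x) 0 * max (-x) 0)) (β V) := by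
    unfold b c
    rw [cfc_sub (fun x : ℝ => x) (fun x : ℝ => max x 0 * max x 0 - max (-x) 0 * max (-x) 0) (β V),
      cfc_sub (fun x : ℝ => max x 0 * max x 0) (fun x : ℝ => max (-x) 0 * max (-x) 0) (β V),
      cfc_mul (fun x : ℝ => max x 0) (fun x : ℝ => max x 0) (β V),
      cfc_mul (fun x : ℝ => max (-x) 0) (fun x : ℝ => max (-x) 0) (β V), cfc_id' ℝ (β V)]
  rw [e]
  refine norm_cfc_le (by norm_num) fun x hx => ?_
  have hx1 : |x| ≤ 1 := (spectrum.norm_le_norm_of_mem hx).trans (β_norm V hV)
  rw [Real.norm_eq_abs]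
  rcases le_total x 0 with h | h
  · rw [max_eq_right h, max_eq_left (by linarith : (0 : ℝ) ≤ -x), abs_le]
    rw [abs_of_nonpos h] at hx1
    constructor
    · nlinarith [sq_nonneg (x + 1 / 2)]
    · nlinarith
  · rw [max_eq_left h, max_eq_right (by linarith : -x ≤ (0 : ℝ)), abs_le]
    rw [abs_of_nonneg h] at hx1
    constructor
    · nlinarith
    · nlinarith [sq_nonneg (x - 1 / 2)]

theorem bc0 : b V * c V = 0 := by
  have hβ := β_isa V
  unfold b c
  rw [← cfc_mul (fun x : ℝ => max x 0) (fun x : ℝ => max (-x) 0) (β V)]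
  rw [show (0 : H →L[ℂ] H) = cfc (fun _ : ℝ => (0 : ℝ)) (β V) by rw [cfc_const_zero]]
  refine cfc_congr fun x _ => ?_
  rcases le_total x 0 with h | h
  · simp only [max_eq_right h]; ring
  · simp only [max_eq_right (by linarith : -x ≤ (0 : ℝ))]; ring

theorem b_sa : star (b V) = b V := by
  have : IsSelfAdjoint (b V) := cfc_predicate _ _
  exact this

theorem c_sa : star (c V) = c V := by
  have : IsSelfAdjoint (c V) := cfc_predicate _ _
  exact this

theorem cb0 : c V * b V = 0 := by
  have := congrArg star (bc0 V)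
  rwa [star_mul, star_zero, b_sa, c_sa] at this

variable {V}

theorem aaββ {q : H →L[ℂ] H} (hV : star V * V = 1) (hV' : V * star V = 1 - q) :
    a V * a V + β V * β V = 1 - (1 / 2 : ℂ) • q := by
  unfold a β
  simp only [smul_mul_smul_comm]
  have e : (-Complex.I / 2) * (-Complex.I / 2) = -(1 / 2 * (1 / 2) : ℂ) := by
    have := Complex.I_mul_I
    linear_combination (1 / 4 : ℂ) * this
  rw [e, neg_smul, ← smul_neg, ← smul_add]
  have : (V + star V) * (V + star V) + -((V - star V) * (V - star V)) =
      (2 : ℂ) • (V * star V + star V * V) := by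
    rw [two_smul]
    noncomm_ring
  rw [this, hV, hV', smul_smul]
  have : (1 : H →L[ℂ] H) - q + 1 = (2 : ℂ) • 1 - q := by rw [two_smul]; abel
  rw [this, smul_sub, smul_smul]
  norm_num

theorem aβ {q : H →L[ℂ] H} (hV : star V * V = 1) (hV' : V * star V = 1 - q) :
    a V * β V - β V * a V = (-Complex.I / 2) • q := by
  unfold a β
  simp only [smul_mul_smul_comm]
  rw [mul_comm (1 / 2 : ℂ), ← smul_sub]
  have : (V + star V) * (V - star V) - (V - star V) * (V + star V) =
      (2 : ℂ) • (star V * V - V * star V) := by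
    rw [two_smul]
    noncomm_ring
  rw [this, hV, hV', smul_smul]
  have : (1 : H →L[ℂ] H) - (1 - q) = q := by abel
  rw [this]
  congr 1
  ring

theorem β_mem {q : H →L[ℂ] H} (hV : star V * V = 1) (hV' : V * star V = 1 - q)
    (hq : IsCompactOperator q) : β V ∈ comA (a V) := by
  refine ⟨?_, ?_⟩
  · rw [aβ hV hV']; exact cpt_smul _ hq
  · rw [β_sa, aβ hV hV']; exact cpt_smul _ hq

theorem site [Nontrivial H] {q W : H →L[ℂ] H} (hV : star V * V = 1) (hV' : V * star V = 1 - q)
    (hq : IsCompactOperator q) (hW : star W = W) (hWW : W * W = 1) (hWV : W * V * W = -V)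
    (hk : ∃ x : H, x ≠ 0 ∧ star V x = 0) : Site V (a V) (b V) (c V) W := by
  have hWV' : W * star V * W = - star V := by
    have := congrArg star hWV
    rwa [star_mul, star_mul, hW, star_neg, ← mul_assoc] at this
  have hWβ : W * β V * W = - β V := by
    unfold β
    rw [mul_smul_comm, smul_mul_assoc, mul_sub, sub_mul, hWV, hWV', ← smul_neg]
    congr 1
    abel
  refine ⟨a_sa V, b_sa V, c_sa V, bc0 V, cb0 V, ?_, ?_, ?_, hW, hWW, ?_, ?_, hV, ?_, hk⟩
  · rw [bb_cc, aaββ hV hV']
    have : (1 : H →L[ℂ] H) - (1 / 2 : ℂ) • q - 1 = (-(1 / 2) : ℂ) • q := by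
      rw [neg_smul]; abel
    rw [this]
    exact cpt_smul _ hq
  · exact (cfc_comA (β_mem hV hV' hq) _).1
  · exact (cfc_comA (β_mem hV hV' hq) _).1
  · unfold a
    rw [mul_smul_comm, smul_mul_assoc, mul_add, add_mul, hWV, hWV', ← smul_neg]
    congr 1
    abel
  · -- `W c W = b`
    have hβ := β_isa V
    let U : unitary (H →L[ℂ] H) := ⟨W, by
      rw [Unitary.mem_iff, hW]
      exact ⟨hWW, hWW⟩⟩
    have h1 := StarAlgHomClass.map_cfc (S := ℂ) (Unitary.conjStarAlgAut ℂ (H →L[ℂ] H) U)
      (fun x : ℝ => max (-x) 0) (β V) (by fun_prop) (by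
        have : (⇑(Unitary.conjStarAlgAut ℂ (H →L[ℂ] H) U) : (H →L[ℂ] H) → (H →L[ℂ] H)) =
            fun x => W * x * W := by
          funext x
          rw [Unitary.conjStarAlgAut_apply]
          show W * x * star W = _
          rw [hW]
        rw [this]
        fun_prop) hβ (by
          rw [Unitary.conjStarAlgAut_apply]
          show IsSelfAdjoint (W * β V * star W)
          rw [hW, hWβ]
          exact hβ.neg)
    rw [Unitary.conjStarAlgAut_apply, Unitary.conjStarAlgAut_apply] at h1
    have h2 : W * cfc (fun x : ℝ => max (-x) 0) (β V) * star W =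
      cfc (fun x : ℝ => max (-x) 0) (W * β V * star W) := h1
    rw [hW, hWβ, ← cfc_comp_neg (fun x : ℝ => max (-x) 0) (β V)] at h2
    rw [c, h2, b]
    refine cfc_congr fun x _ => ?_
    simp
  · refine ⟨-((2 * Complex.I) • ((β V - (b V * b V - c V * c V)) * a V)), ?_, ?_⟩
    · rw [norm_neg, norm_smul]
      have h1 : ‖(β V - (b V * b V - c V * c V)) * a V‖ ≤ 1 / 4 * 1 := by
        refine (norm_mul_le _ _).trans ?_
        gcongr
        · exact diff_norm V hV
        · exact a_norm V hV
      have h2 : ‖(2 * Complex.I : ℂ)‖ = 2 := by simp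
      rw [h2]
      linarith
    · have e1 : V * V = a V * a V - β V * β V + Complex.I • (a V * β V + β V * a V) := by
        conv_lhs => rw [V_eq V]
        rw [add_mul, mul_add, mul_add, smul_mul_smul_comm, Complex.I_mul_I, neg_one_smul,
          smul_add, mul_smul_comm, smul_mul_assoc]
        abel
      rw [e1, add_comm (c V * c V), bb_cc]
      have e2 : a V * β V = β V * a V + (-Complex.I / 2) • q := by
        rw [← aβ hV hV']; abel
      have e3 : a V * a V = 1 - (1 / 2 : ℂ) • q - β V * β V := by
        rw [← aaββ hV hV']; abel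
      rw [e2, e3, sub_mul (β V)]
      generalize (b V * b V - c V * c V) * a V = X
      have e4 : Complex.I • (β V * a V + (-Complex.I / 2) • q + β V * a V) =
          (2 * Complex.I) • (β V * a V) + (1 / 2 : ℂ) • q := by
        rw [smul_add, smul_add, smul_smul, two_mul, add_smul]
        have : Complex.I * (-Complex.I / 2) = 1 / 2 := by
          have := Complex.I_mul_I
          linear_combination (-1 / 2 : ℂ) * this
        rw [this]
        abel
      rw [e4, smul_sub, two_smul]
      abel

end

end Pool.Agent.H231R3
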