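import Pool.Agent.H231R3.Lp
import Pool.Agent.H231R3.Key
import Pool.Agent.H231R3.Site

set_option autoImplicit false
set_option linter.unusedSectionVars false
set_option linter.unusedVariables false

open scoped InnerProductSpace ENNReal Topology

namespace Pool.Agent.H231R3

noncomputable section

section gen
variable {G : Type} [NormedAddCommGroup G] [InnerProductSpace ℂ G] [CompleteSpace G]

/-- evaluation at a site -/
def ev (i : ℕ) : L2 G →L[ℂ] G := lp.evalCLM ℂ (fun _ : ℕ => G) 2 i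

/-- embedding at a site -/
def sg (i : ℕ) : G →L[ℂ] L2 G := lp.singleContinuousLinearMap ℂ (fun _ : ℕ => G) 2 i

theorem ev_apply (i : ℕ) (x : L2 G) : ev i x = x i := rfl

theorem sg_apply (i : ℕ) (x : G) : sg i x = lp.single 2 i x := rfl

theorem sg_apply' (i j : ℕ) (x : G) : sg i x j = if j = i then x else 0 := by
  rw [sg_apply]
  by_cases h : j = i
  · subst h; simp
  · rw [lp.single_apply_ne _ _ _ h, if_neg h]

theorem am_pr_lt_cpt {k : G →L[ℂ] G} (hk : IsCompactOperator k) (N : ℕ) :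
    IsCompactOperator (am k * pr (fun i => i < N) : L2 G →L[ℂ] L2 G) := by
  induction N with
  | zero =>
    have : (am k * pr (fun i => i < 0) : L2 G →L[ℂ] L2 G) = 0 := by
      ext x i
      simp [pr_apply]
    rw [this]
    exact isCompactOperator_zero
  | succ N ih =>
    have : (am k * pr (fun i => i < N + 1) : L2 G →L[ℂ] L2 G) =
        am k * pr (fun i => i < N) + (sg N ∘L k ∘L ev N) := by
      ext x i
      simp only [mul_apply_eq_comp, am_apply, pr_apply, ContinuousLinearMap.comp_apply,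
        add_apply, lp.coeFn_add, Pi.add_apply, sg_apply', ev_apply]
      rcases lt_trichotomy i N with h | h | h
      · simp [h, h.ne, Nat.lt_succ_of_lt h]
      · subst h; simp
      · simp [h.ne', not_lt.2 h.le, not_lt.2 (Nat.succ_le_of_lt h)]
    rw [this]
    refine ih.add ?_
    have h1 : IsCompactOperator (k ∘L ev N : L2 G →L[ℂ] G) := hk.comp_clm (ev N)
    exact h1.clm_comp (sg N)

theorem am_pr0_cpt {k : G →L[ℂ] G} (hk : IsCompactOperator k) :
    IsCompactOperator (am k * pr (fun i => i = 0) : L2 G →L[ℂ] L2 G) := by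
  have : (pr (fun i => i = 0) : L2 G →L[ℂ] L2 G) = pr (fun i => i < 1) := by
    ext x i
    simp [pr_apply]
  rw [this]
  exact am_pr_lt_cpt hk 1

/-- the filtration -/
def Pn (n : ℕ) : L2 G →L[ℂ] L2 G := pr (fun i => i < n)

theorem one_sub_pr (p : ℕ → Prop) [DecidablePred p] :
    (1 - pr p : L2 G →L[ℂ] L2 G) = pr (fun i => ¬ p i) := by
  ext x i
  simp only [sub_apply, one_apply_eq_self, lp.coeFn_sub, Pi.sub_apply, pr_apply]
  by_cases h : p i <;> simp [h]

theorem filt : Filt (Pn : ℕ → (L2 G →L[ℂ] L2 G)) where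
  sa n := star_pr _
  mul m n h := by
    unfold Pn
    rw [pr_mul_pr]
    congr 1
    funext i
    simp only [eq_iff_iff]
    constructor
    · exact fun h => h.1
    · exact fun h' => ⟨h', h'.trans_le h⟩
  nrm n := pr_norm _
  nrm' n := by
    unfold Pn
    rw [one_sub_pr]
    exact pr_norm _

theorem am_MM (t : G →L[ℂ] G) : am t ∈ MM (Pn : ℕ → (L2 G →L[ℂ] L2 G)) := by
  refine MM_of_band filt fun N => ⟨N, ?_, ?_⟩
  · rw [Pn, am_pr, ← mul_assoc, ← Pn, filt.comp_P N N le_rfl, zero_mul]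
  · rw [star_am, Pn, am_pr, ← mul_assoc, ← Pn, filt.comp_P N N le_rfl, zero_mul]

theorem pr_comm (p q : ℕ → Prop) [DecidablePred p] [DecidablePred q] :
    (pr p : L2 G →L[ℂ] L2 G) * pr q = pr q * pr p := by
  ext x i
  simp only [mul_apply_eq_comp, pr_apply]
  split_ifs <;> rfl

theorem pr_MM (p : ℕ → Prop) [DecidablePred p] :
    pr p ∈ MM (Pn : ℕ → (L2 G →L[ℂ] L2 G)) := by
  refine MM_of_band filt fun N => ⟨N, ?_, ?_⟩
  · rw [Pn, pr_comm p, ← mul_assoc, ← Pn, filt.comp_P N N le_rfl, zero_mul]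
  · rw [star_pr, Pn, pr_comm p, ← mul_assoc, ← Pn, filt.comp_P N N le_rfl, zero_mul]

theorem sh_Pn (N : ℕ) : (sh : L2 G →L[ℂ] L2 G) * Pn N = Pn (N + 1) * sh :=
  sh_pr _ _ (fun i => Nat.add_lt_add_iff_right)

theorem Pn_bs (N : ℕ) : Pn N * (bs : L2 G →L[ℂ] L2 G) = bs * Pn (N + 1) :=
  pr_bs _ _ (fun i => Nat.add_lt_add_iff_right)

theorem sh_MM : (sh : L2 G →L[ℂ] L2 G) ∈ MM (Pn : ℕ → (L2 G →L[ℂ] L2 G)) := by
  refine MM_of_band filt fun N => ⟨N + 1, ?_, ?_⟩
  · rw [sh_Pn, ← mul_assoc, filt.comp_P _ _ le_rfl, zero_mul]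
  · rw [star_sh]
    have : (Pn N : L2 G →L[ℂ] L2 G) = Pn (N + 1 + 1) * Pn N :=
      (filt.mul' _ _ (by omega)).symm
    rw [this, ← mul_assoc bs, ← Pn_bs, ← mul_assoc, ← mul_assoc, filt.comp_P _ _ le_rfl, zero_mul,
      zero_mul]

theorem bs_MM : (bs : L2 G →L[ℂ] L2 G) ∈ MM (Pn : ℕ → (L2 G →L[ℂ] L2 G)) := by
  rw [← star_sh]
  exact MM_star sh_MM

theorem am_Mc {k : G →L[ℂ] G} (hk : IsCompactOperator k) (hk' : IsCompactOperator (star k : G →L[ℂ] G)) :
    am k ∈ Mc (Pn : ℕ → (L2 G →L[ℂ] L2 G)) :=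
  ⟨am_MM k, fun N => ⟨am_pr_lt_cpt hk N, by rw [star_am]; exact am_pr_lt_cpt hk' N⟩⟩

/-- even and odd coordinates -/
def Ev : L2 G →L[ℂ] L2 G := pr (fun i => Even i)
def Od : L2 G →L[ℂ] L2 G := pr (fun i => ¬ Even i)
def dl : L2 G →L[ℂ] L2 G := pr (fun i => i = 0)

theorem EE : (Ev * Ev : L2 G →L[ℂ] L2 G) = Ev := by
  unfold Ev; rw [pr_mul_pr]; simp
theorem OO : (Od * Od : L2 G →L[ℂ] L2 G) = Od := by
  unfold Od; rw [pr_mul_pr]; simp
theorem EO : (Ev * Od : L2 G →L[ℂ] L2 G) = 0 := by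
  unfold Od Ev; rw [pr_mul_pr]
  ext x i
  simp [pr_apply]
theorem OE : (Od * Ev : L2 G →L[ℂ] L2 G) = 0 := by
  unfold Od Ev; rw [pr_mul_pr]
  ext x i
  simp [pr_apply]
theorem EaddO : (Ev + Od : L2 G →L[ℂ] L2 G) = 1 := by
  unfold Od Ev
  rw [← one_sub_pr]; abel
theorem sh_E : (sh * Ev : L2 G →L[ℂ] L2 G) = Od * sh :=
  sh_pr _ _ (fun i => by rw [Nat.even_add_one, not_not])
theorem sh_O : (sh * Od : L2 G →L[ℂ] L2 G) = Ev * sh :=
  sh_pr _ _ (fun i => by rw [Nat.even_add_one])
theorem bs_O : (bs * Od : L2 G →L[ℂ] L2 G) = Ev * bs :=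
  (pr_bs _ _ (fun i => by rw [Nat.even_add_one, not_not])).symm
theorem bs_E : (bs * Ev : L2 G →L[ℂ] L2 G) = Od * bs :=
  (pr_bs _ _ (fun i => by rw [Nat.even_add_one])).symm
theorem E_dl : (Ev * dl : L2 G →L[ℂ] L2 G) = dl := by
  ext x i
  simp only [Ev, dl, mul_apply_eq_comp, pr_apply]
  by_cases h : i = 0
  · subst h; simp
  · simp [h]
theorem O_dl : (Od * dl : L2 G →L[ℂ] L2 G) = 0 := by
  ext x i
  simp only [Od, dl, mul_apply_eq_comp, pr_apply]
  by_cases h : i = 0
  · subst h; simp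
  · simp [h]
theorem dl_E : (dl * Ev : L2 G →L[ℂ] L2 G) = dl := by
  unfold dl Ev; rw [pr_comm]; exact E_dl
theorem dl_O : (dl * Od : L2 G →L[ℂ] L2 G) = 0 := by
  unfold dl Od; rw [pr_comm]; exact O_dl
theorem dl_dl : (dl * dl : L2 G →L[ℂ] L2 G) = dl := by
  unfold dl; rw [pr_mul_pr]; simp
theorem dl_sh : (dl * sh : L2 G →L[ℂ] L2 G) = 0 := by
  ext x i
  simp only [dl, mul_apply_eq_comp, pr_apply]
  by_cases h : i = 0
  · subst h; simp
  · simp [h]
theorem sh_bs' : (sh * bs : L2 G →L[ℂ] L2 G) = 1 - dl := sh_mul_bs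

end gen

section chain

variable {H : Type} [NormedAddCommGroup H] [InnerProductSpace ℂ H] [CompleteSpace H]
variable {V a b c W : H →L[ℂ] H}

variable (a b c) in
/-- staggered potential -/
def cA : L2 H →L[ℂ] L2 H := am a * (Ev - Od)
variable (b c) in
/-- alternating hopping -/
def cB : L2 H →L[ℂ] L2 H := am b * Ev + am c * Od

variable (a b c) in
/-- the block Jacobi operator -/
def T0 : L2 H →L[ℂ] L2 H := cA a + cB b c * bs + sh * cB b c

theorem am_Ev (t : H →L[ℂ] H) : am t * Ev = Ev * am t := am_pr _ _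
theorem am_Od (t : H →L[ℂ] H) : am t * Od = Od * am t := am_pr _ _
theorem am_dl (t : H →L[ℂ] H) : am t * dl = dl * am t := am_pr _ _
theorem star_Ev : star (Ev : L2 H →L[ℂ] L2 H) = Ev := star_pr _
theorem star_Od : star (Od : L2 H →L[ℂ] L2 H) = Od := star_pr _

theorem star_cA (h : star a = a) : star (cA a) = cA a := by
  unfold cA
  rw [star_mul, star_sub, star_Ev, star_Od, star_am, h, mul_sub, sub_mul, am_Ev, am_Od]

theorem star_cB (h : star b = b) (h' : star c = c) : star (cB b c) = cB b c := by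
  unfold cB
  rw [star_add, star_mul, star_mul, star_Ev, star_Od, star_am, star_am, h, h', am_Ev, am_Od]

theorem star_T0 (ha : star a = a) (hb : star b = b) (hc : star c = c) :
    star (T0 a b c) = T0 a b c := by
  have h1 : star (bs : L2 H →L[ℂ] L2 H) = sh := by rw [← star_sh, star_star]
  unfold T0
  rw [star_add, star_add, star_mul, star_mul, star_cA ha, star_cB hb hc, star_sh, h1]
  abel

theorem T0_MM : T0 a b c ∈ MM (Pn : ℕ → (L2 H →L[ℂ] L2 H)) := by
  have hB : cB b c ∈ MM (Pn : ℕ → (L2 H →L[ℂ] L2 H)) :=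
    MM_add filt (MM_mul (am_MM b) (pr_MM _)) (MM_mul (am_MM c) (pr_MM _))
  have hA : cA a ∈ MM (Pn : ℕ → (L2 H →L[ℂ] L2 H)) :=
    MM_mul (am_MM a) (MM_sub filt (pr_MM _) (pr_MM _))
  exact MM_add filt (MM_add filt hA (MM_mul hB bs_MM)) (MM_mul sh_MM hB)

variable (a b c) in
/-- commutator part -/
def cR : L2 H →L[ℂ] L2 H := am (a * b - b * a) * Ev - am (a * c - c * a) * Od

theorem AB_BA : cA a * cB b c - cB b c * cA a = cR a b c := by
  unfold cA cB cR
  have h1 : am a * (Ev - Od) * (am b * Ev + am c * Od) =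
      am a * am b * ((Ev - Od) * Ev) + am a * am c * ((Ev - Od) * Od) := by
    have e1 : (Ev - Od) * am b = am b * (Ev - Od) := by rw [mul_sub, sub_mul, am_Ev, am_Od]
    have e2 : (Ev - Od) * am c = am c * (Ev - Od) := by rw [mul_sub, sub_mul, am_Ev, am_Od]
    calc _ = am a * ((Ev - Od) * am b) * Ev + am a * ((Ev - Od) * am c) * Od := by noncomm_ring
      _ = _ := by rw [e1, e2]; noncomm_ring
  have h2 : (am b * Ev + am c * Od) * (am a * (Ev - Od)) =
      am b * am a * (Ev * (Ev - Od)) + am c * am a * (Od * (Ev - Od)) := by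
    calc _ = am b * (Ev * am a) * (Ev - Od) + am c * (Od * am a) * (Ev - Od) := by noncomm_ring
      _ = _ := by rw [← am_Ev, ← am_Od]; noncomm_ring
  rw [h1, h2]
  simp only [mul_sub, sub_mul, EE, OO, EO, OE, am_sub, am_mul, mul_zero, sub_zero, zero_sub, mul_neg]
  abel

theorem bs_A : (bs : L2 H →L[ℂ] L2 H) * cA a = - (cA a * bs) := by
  unfold cA
  have h : bs * (am a * (Ev - Od)) = am a * (bs * Ev - bs * Od) := by
    rw [← mul_assoc, ← am_bs]; noncomm_ring
  rw [h, bs_E, bs_O]
  noncomm_ring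

theorem A_sh : cA a * (sh : L2 H →L[ℂ] L2 H) = - (sh * cA a) := by
  unfold cA
  have h : am a * (Ev - Od) * sh = am a * (Ev * sh - Od * sh) := by noncomm_ring
  rw [h, ← sh_O, ← sh_E, ← mul_sub, ← mul_assoc, am_sh]
  noncomm_ring

theorem AA : cA a * cA a = am (a * a) := by
  unfold cA
  have e1 : (Ev - Od) * am a = am a * (Ev - Od) := by rw [mul_sub, sub_mul, am_Ev, am_Od]
  have : am a * (Ev - Od) * (am a * (Ev - Od)) = am a * am a * ((Ev - Od) * (Ev - Od)) := by
    calc _ = am a * ((Ev - Od) * am a) * (Ev - Od) := by noncomm_ring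
      _ = _ := by rw [e1]; noncomm_ring
  rw [this, am_mul]
  have h2 : ((Ev - Od) * (Ev - Od) : L2 H →L[ℂ] L2 H) = 1 := by
    rw [sub_mul, mul_sub, mul_sub, EE, OO, EO, OE, ← EaddO]; abel
  rw [h2, mul_one]

theorem BB (h : b * c = 0) (h' : c * b = 0) :
    cB b c * cB b c = am (b * b) * Ev + am (c * c) * Od := by
  unfold cB
  calc _ = am b * (Ev * am b) * Ev + am b * (Ev * am c) * Od + am c * (Od * am b) * Ev +
        am c * (Od * am c) * Od := by noncomm_ring
    _ = am b * am b * (Ev * Ev) + am b * am c * (Ev * Od) + am c * am b * (Od * Ev) +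
        am c * am c * (Od * Od) := by
          rw [← am_Ev, ← am_Ev, ← am_Od, ← am_Od]; noncomm_ring
    _ = _ := by rw [EE, OO, EO, OE, am_mul, am_mul]; noncomm_ring

theorem sBBs (h : b * c = 0) (h' : c * b = 0) :
    sh * (cB b c * cB b c) * bs = am (b * b) * Od + am (c * c) * Ev - am (c * c) * dl := by
  rw [BB h h']
  calc _ = sh * am (b * b) * Ev * bs + sh * am (c * c) * Od * bs := by noncomm_ring
    _ = am (b * b) * (sh * Ev) * bs + am (c * c) * (sh * Od) * bs := by
      rw [← am_sh, ← am_sh]; noncomm_ring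
    _ = am (b * b) * Od * (sh * bs) + am (c * c) * Ev * (sh * bs) := by
      rw [sh_E, sh_O]; noncomm_ring
    _ = am (b * b) * Od + am (c * c) * Ev - (am (b * b) * (Od * dl) + am (c * c) * (Ev * dl)) := by
      rw [sh_bs']; noncomm_ring
    _ = _ := by rw [O_dl, E_dl]; noncomm_ring

theorem BbsB (h : b * c = 0) (h' : c * b = 0) : cB b c * bs * cB b c = 0 := by
  have : bs * cB b c = (am b * Od + am c * Ev) * bs := by
    unfold cB
    calc _ = (bs * am b) * Ev + (bs * am c) * Od := by noncomm_ring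
      _ = am b * (bs * Ev) + am c * (bs * Od) := by rw [← am_bs, ← am_bs]; noncomm_ring
      _ = _ := by rw [bs_E, bs_O]; noncomm_ring
  rw [mul_assoc, this]
  unfold cB
  calc _ = (am b * (Ev * am b) * Od + am b * (Ev * am c) * Ev + am c * (Od * am b) * Od +
        am c * (Od * am c) * Ev) * bs := by noncomm_ring
    _ = (am b * am b * (Ev * Od) + am b * am c * (Ev * Ev) + am c * am b * (Od * Od) +
        am c * am c * (Od * Ev)) * bs := by
          rw [← am_Ev, ← am_Ev, ← am_Od, ← am_Od]; noncomm_ring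
    _ = 0 := by
      rw [EO, OE, ← am_mul b c, ← am_mul c b, h, h', am_zero]; noncomm_ring

theorem BshB (hb : star b = b) (hc : star c = c) (h : b * c = 0) (h' : c * b = 0) :
    cB b c * sh * cB b c = 0 := by
  have h1 : star (bs : L2 H →L[ℂ] L2 H) = sh := by rw [← star_sh, star_star]
  have := congrArg star (BbsB h h')
  rwa [star_mul, star_mul, star_cB hb hc, h1, star_zero, ← mul_assoc] at this

theorem T0_sq (hb : star b = b) (hc : star c = c) (h : b * c = 0) (h' : c * b = 0) :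
    T0 a b c * T0 a b c = am (a * a + (b * b + c * c)) - am (c * c) * dl +
      cR a b c * bs - sh * cR a b c := by
  have e : T0 a b c * T0 a b c = cA a * cA a + cB b c * (bs * sh) * cB b c +
      sh * (cB b c * cB b c) * bs + (cA a * cB b c * bs + cB b c * (bs * cA a)) +
      (cA a * sh * cB b c + sh * (cB b c * cA a)) + cB b c * bs * cB b c * bs +
      sh * (cB b c * sh * cB b c) := by
    unfold T0; noncomm_ring
  rw [e, BbsB h h', BshB hb hc h h', sBBs h h', AA, bs_mul_sh, bs_A, A_sh, mul_one, BB h h',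
    ← AB_BA]
  have e2 : am (a * a + (b * b + c * c)) = am (a * a) + (am (b * b) + am (c * c)) * (Ev + Od) := by
    rw [EaddO, am_add, am_add, mul_one]
  rw [e2]
  noncomm_ring

theorem T0_dec (hs : Site V a b c W) : T0 a b c * T0 a b c - 1 = -(am (c * c) * dl) +
    (am (a * a + (b * b + c * c) - 1) + cR a b c * bs - sh * cR a b c) := by
  rw [T0_sq hs.sb hs.sc hs.bc hs.cb, am_sub, am_one]
  abel

theorem A1_mem : -(am (c * c) * dl) ∈ I0 (Pn : ℕ → (L2 H →L[ℂ] L2 H)) := by
  refine I0_neg (I0_mul_left filt ?_ (am_MM _))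
  have : (dl : L2 H →L[ℂ] L2 H) = Pn 1 := by
    ext x i
    simp [dl, Pn, pr_apply]
  rw [this]
  exact P_mem filt 1

theorem C1_mem (hs : Site V a b c W) :
    am (a * a + (b * b + c * c) - 1) + cR a b c * bs - sh * cR a b c ∈
      Mc (Pn : ℕ → (L2 H →L[ℂ] L2 H)) := by
  have h1 : star (a * a + (b * b + c * c) - 1) = a * a + (b * b + c * c) - 1 := by
    rw [star_sub, star_add, star_add, star_mul, star_mul, star_mul, hs.sa, hs.sb, hs.sc, star_one]
  have h2 : star (a * b - b * a) = -(a * b - b * a) := by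
    rw [star_sub, star_mul, star_mul, hs.sa, hs.sb]; abel
  have h3 : star (a * c - c * a) = -(a * c - c * a) := by
    rw [star_sub, star_mul, star_mul, hs.sa, hs.sc]; abel
  have hR : cR a b c ∈ Mc (Pn : ℕ → (L2 H →L[ℂ] L2 H)) := by
    unfold cR
    refine Mc_sub filt (Mc_mul_right filt (am_Mc hs.ab ?_) (pr_MM _))
      (Mc_mul_right filt (am_Mc hs.ac ?_) (pr_MM _))
    · rw [h2]
      have := cpt_smul (-1) hs.ab
      rwa [neg_one_smul] at this
    · rw [h3]
      have := cpt_smul (-1) hs.ac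
      rwa [neg_one_smul] at this
  exact Mc_sub filt (Mc_add filt (am_Mc hs.sq (by rw [h1]; exact hs.sq))
    (Mc_mul_right filt hR bs_MM)) (Mc_mul_left filt hR sh_MM)

variable (a b c) in
/-- boundary operator -/
def yy : H →L[ℂ] H := (2 : ℂ) • (c * c) + (2 * Complex.I) • (c * c * a)

theorem Y_eq (hs : Site V a b c W) :
    1 + -(am (c * c) * dl) * ps (T0 a b c) = 1 - am (yy a c) * dl := by
  have e1 : dl * T0 a b c = am a * dl + am b * (dl * bs) := by
    unfold T0 cA cB
    calc _ = (dl * am a) * (Ev - Od) + (dl * am b) * Ev * bs + (dl * am c) * Od * bs +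
          dl * sh * (am b * Ev + am c * Od) := by noncomm_ring
      _ = am a * (dl * Ev - dl * Od) + am b * (dl * Ev) * bs + am c * (dl * Od) * bs + 0 := by
          rw [dl_sh, ← am_dl, ← am_dl, ← am_dl]; noncomm_ring
      _ = _ := by rw [dl_E, dl_O]; noncomm_ring
  have e2 : am (c * c) * (dl * T0 a b c) = am (c * c * a) * dl := by
    rw [e1, mul_add, ← mul_assoc, ← mul_assoc, ← am_mul, ← am_mul, mul_assoc c c b, hs.cb, mul_zero,
      am_zero, zero_mul, add_zero]
  unfold ps yy
  rw [am_add, am_smul, am_smul, add_mul, smul_mul_assoc, smul_mul_assoc, ← e2, neg_mul, mul_add,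
    mul_smul_comm, mul_smul_comm, mul_one, mul_assoc (am (c * c)), sub_eq_add_neg]

theorem chain_false [Nontrivial H] (hs : Site V a b c W)
    (hap : ∀ ε : ℝ, 0 < ε → ∃ S ∈ MM (Pn : ℕ → (L2 H →L[ℂ] L2 H)), IsSelfAdjoint S ∧
      (spectrum ℂ S).Finite ∧ ‖T0 a b c - S‖ < ε) : False := by
  have : Nontrivial (L2 H) := by
    obtain ⟨x, hx⟩ := exists_ne (0 : H)
    refine ⟨⟨sg 0 x, 0, fun h => hx ?_⟩⟩
    have := congrArg (fun x : L2 H => x 0) h
    simpa [sg_apply'] using this
  have hkey := key filt T0_MM (star_T0 hs.sa hs.sb hs.sc) A1_mem (C1_mem hs) (T0_dec hs) hap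
  obtain ⟨D, hD, hDe⟩ := hs.vv
  obtain ⟨x, hx, hVx⟩ := hs.ker
  set y1 := yy a c with hy1
  set y2 : H →L[ℂ] H := (2 : ℂ) • (b * b) - (2 * Complex.I) • (b * b * a) with hy2
  have hWy : W * y1 * W = y2 := by
    have e1 : W * (c * c) * W = b * b := by
      calc W * (c * c) * W = (W * c * 1) * (c * W) := by noncomm_ring
        _ = (W * c * W) * (W * c * W) := by rw [← hs.WW]; noncomm_ring
        _ = _ := by rw [hs.Wc]
    have e2 : W * (c * c * a) * W = -(b * b * a) := by
      calc W * (c * c * a) * W = (W * (c * c) * 1) * (a * W) := by noncomm_ring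
        _ = (W * (c * c) * W) * (W * a * W) := by rw [← hs.WW]; noncomm_ring
        _ = _ := by rw [e1, hs.Wa]; noncomm_ring
    rw [hy1, yy, mul_add, add_mul, mul_smul_comm, mul_smul_comm, smul_mul_assoc, smul_mul_assoc,
      e1, e2, smul_neg, hy2, sub_eq_add_neg]
  have hyy : IsCompactOperator (y1 * y2 : H →L[ℂ] H) := by
    have e1 : c * c * (b * b) = 0 := by
      calc c * c * (b * b) = c * (c * b) * b := by noncomm_ring
        _ = 0 := by rw [hs.cb]; noncomm_ring
    have hab : IsCompactOperator (a * (b * b) - b * b * a : H →L[ℂ] H) := by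
      have : a * (b * b) - b * b * a = (a * b - b * a) * b + b * (a * b - b * a) := by noncomm_ring
      rw [this]
      exact cpt_add (cpt_mul_right hs.ab _) (cpt_mul_left hs.ab _)
    have e2 : c * c * a * (b * b) = c * c * (a * (b * b) - b * b * a) := by
      rw [mul_sub, ← mul_assoc (c * c) (b * b) a, e1, zero_mul, sub_zero, mul_assoc]
    have h2 : IsCompactOperator (c * c * a * (b * b) : H →L[ℂ] H) := by
      rw [e2]; exact cpt_mul_left hab _
    have e3 : y1 * y2 = (2 * Complex.I * 2) • (c * c * a * (b * b)) -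
        (2 * Complex.I * (2 * Complex.I)) • (c * c * a * (b * b) * a) := by
      rw [hy1, yy, hy2]
      rw [add_mul, mul_sub, mul_sub]
      simp only [smul_mul_smul_comm]
      rw [← mul_assoc (c * c) (b * b) a, e1, ← mul_assoc (c * c * a) (b * b) a]
      simp
    rw [e3]
    exact cpt_sub (cpt_smul _ h2) (cpt_smul _ (cpt_mul_right h2 _))
  set Wh : L2 H →L[ℂ] L2 H := am W with hWh
  have hWh2 : Wh * Wh = 1 := by rw [hWh, ← am_mul, hs.WW, am_one]
  set Y : L2 H →L[ℂ] L2 H := 1 - am y1 * dl with hY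
  set Y' : L2 H →L[ℂ] L2 H := 1 - am y2 * dl with hY'
  have hYY' : Y' = Wh * Y * Wh := by
    rw [hY', hY, ← hWy, mul_sub, sub_mul, mul_one, hWh2, hWh]
    congr 1
    rw [am_mul, am_mul]
    rw [mul_assoc (am W * am y1) (am W) dl, am_dl W]
    noncomm_ring
  set U : L2 H →L[ℂ] L2 H := 1 - dl + am (star V * star V) * dl with hU
  have hcomm : ∀ t : H →L[ℂ] H, dl * am t = am t * dl := fun t => (am_dl t).symm
  have hVV : star V * star V * (V * V) = 1 := by
    calc star V * star V * (V * V) = star V * (star V * V) * V := by noncomm_ring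
      _ = 1 := by rw [hs.iso, mul_one, hs.iso]
  have hprod : U * (Y * Y') = 1 + am (star V * star V * D) * dl + U * (am (y1 * y2) * dl) := by
    have e1 : Y * Y' = 1 - dl + am (V * V + D) * dl + am (y1 * y2) * dl := by
      have e2 : V * V + D = 1 - y1 - y2 := by
        rw [← hDe, hy1, yy, hy2]
        rw [sub_mul, smul_add, smul_sub]
        abel
      rw [e2, am_sub, am_sub, am_one, am_mul]
      calc Y * Y' = 1 - am y1 * dl - am y2 * dl + am y1 * (dl * am y2) * dl := by
            rw [hY, hY']; noncomm_ring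
        _ = 1 - am y1 * dl - am y2 * dl + am y1 * am y2 * (dl * dl) := by
            rw [hcomm]; noncomm_ring
        _ = _ := by rw [dl_dl]; noncomm_ring
    rw [e1, mul_add]
    congr 1
    have e3 : U * (1 - dl + am (V * V + D) * dl) =
        1 - dl + am (star V * star V) * am (V * V + D) * dl := by
      have f1 : ((1 - dl) * (1 - dl) : L2 H →L[ℂ] L2 H) = 1 - dl := by
        rw [sub_mul, one_mul, mul_sub, mul_one, dl_dl]; abel
      have f2 : ((1 - dl) * (am (V * V + D) * dl) : L2 H →L[ℂ] L2 H) = 0 := by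
        rw [sub_mul, one_mul, ← mul_assoc, hcomm, mul_assoc, dl_dl, sub_self]
      have f3 : (am (star V * star V) * dl * (1 - dl) : L2 H →L[ℂ] L2 H) = 0 := by
        rw [mul_sub, mul_one, mul_assoc, dl_dl, sub_self]
      have f4 : (am (star V * star V) * dl * (am (V * V + D) * dl) : L2 H →L[ℂ] L2 H) =
          am (star V * star V) * am (V * V + D) * dl := by
        calc _ = am (star V * star V) * (dl * am (V * V + D)) * dl := by noncomm_ring
          _ = am (star V * star V) * am (V * V + D) * (dl * dl) := by rw [hcomm]; noncomm_ring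
          _ = _ := by rw [dl_dl]
      rw [hU, add_mul, mul_add, mul_add, f1, f2, f3, f4]
      abel
    rw [e3, ← am_mul, mul_add, hVV, am_add, am_one]
    noncomm_ring
  have hUx : U (sg 0 x) = 0 := by
    ext i
    rw [hU]
    simp only [add_apply, sub_apply, one_apply_eq_self, mul_apply_eq_comp, lp.coeFn_add,
      lp.coeFn_sub, Pi.add_apply, Pi.sub_apply, am_apply, dl, pr_apply, sg_apply']
    by_cases h : i = 0
    · subst h; simp [hVx]
    · simp [h]
  have hsx : sg 0 x ≠ (0 : L2 H) := by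
    intro h
    have := congrArg (fun x : L2 H => x 0) h
    simp [sg_apply'] at this
    exact hx this
  have hVn : ‖V‖ ≤ 1 := V_norm V hs.iso
  refine final_abs (Y := Y) (Y' := Y') (Wh := Wh) (U := U) (D := am (star V * star V * D) * dl)
    (kc := am (y1 * y2) * dl) ?_ hWh2 hYY' hprod (am_pr0_cpt hyy) ?_ hsx hUx
  · intro ρ hρ
    obtain ⟨G, k, r, h1, h2, h3, h4⟩ := hkey ρ hρ
    rw [Y_eq hs] at h4
    exact ⟨G, k, r, h1, h2, h3, h4⟩
  · have hVs : ‖star V‖ ≤ 1 := by rw [norm_star]; exact hVn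
    calc ‖am (star V * star V * D) * dl‖ ≤ ‖am (star V * star V * D)‖ * ‖(dl : L2 H →L[ℂ] L2 H)‖ :=
          norm_mul_le _ _
      _ ≤ ‖star V * star V * D‖ * 1 := by
          gcongr
          · exact am_norm _
          · exact pr_norm _
      _ ≤ ((1 * 1) * (1 / 2)) * 1 := by
          gcongr
          refine (norm_mul_le _ _).trans ?_
          gcongr
          refine (norm_mul_le _ _).trans ?_
          gcongr
      _ = 1 / 2 := by norm_num

end chain

end

end Pool.Agent.H231R3
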