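import Mathlib

set_option autoImplicit false
set_option linter.unusedSectionVars false

open scoped InnerProductSpace ENNReal

namespace Pool.Agent.H231R3

universe u

variable {G : Type u} [NormedAddCommGroup G] [InnerProductSpace ℂ G] [CompleteSpace G]

/-- square summable sequences in `G` -/
abbrev L2 (G : Type u) [NormedAddCommGroup G] : Type u := lp (fun _ : ℕ => G) 2

theorem l2_summable (x : L2 G) : Summable fun i => ‖x i‖ ^ 2 := by
  have := (lp.memℓp x).summable (by norm_num)
  simpa using this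

theorem l2_norm_sq (x : L2 G) : ‖x‖ ^ 2 = ∑' i, ‖x i‖ ^ 2 := by
  have := lp.norm_rpow_eq_tsum (p := 2) (by norm_num) x
  simpa using this

theorem l2_mem {f : ℕ → G} (h : Summable fun i => ‖f i‖ ^ 2) : Memℓp f 2 := by
  apply memℓp_gen
  simpa using h

theorem l2_le {x : L2 G} {C : ℝ} (hC : 0 ≤ C) (h : ∑' i, ‖x i‖ ^ 2 ≤ C ^ 2) : ‖x‖ ≤ C := by
  rw [← l2_norm_sq] at h
  exact (pow_le_pow_iff_left₀ (norm_nonneg _) hC two_ne_zero).1 h

/-- diagonal operators -/
noncomputable def dg (t : ℕ → (G →L[ℂ] G)) (C : ℝ) (h : ∀ i, ‖t i‖ ≤ C) : L2 G →L[ℂ] L2 G :=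
  LinearMap.mkContinuous
    { toFun := fun x => ⟨fun i => t i (x i), l2_mem (by
        refine Summable.of_nonneg_of_le (fun i => by positivity) (fun i => ?_)
          ((l2_summable x).mul_left (C ^ 2))
        rw [← mul_pow]
        exact pow_le_pow_left₀ (norm_nonneg _) ((t i).le_of_opNorm_le (h i) _) 2)⟩
      map_add' := fun x y => by
        ext i
        show t i ((x + y : L2 G) i) = t i (x i) + t i (y i)
        rw [lp.coeFn_add, Pi.add_apply, map_add]
      map_smul' := fun c x => by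
        ext i
        show t i ((c • x : L2 G) i) = c • t i (x i)
        rw [lp.coeFn_smul, Pi.smul_apply, map_smul] } C (by
    intro x
    have hC : 0 ≤ C := (norm_nonneg _).trans (h 0)
    refine l2_le (by positivity) ?_
    rw [mul_pow, l2_norm_sq, ← tsum_mul_left]
    have hs : ∀ i, ‖t i (x i)‖ ^ 2 ≤ C ^ 2 * ‖x i‖ ^ 2 := fun i => by
      rw [← mul_pow]
      exact pow_le_pow_left₀ (norm_nonneg _) ((t i).le_of_opNorm_le (h i) _) 2
    refine Summable.tsum_le_tsum hs ?_ ((l2_summable x).mul_left (C ^ 2))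
    exact Summable.of_nonneg_of_le (fun i => by positivity) hs
          ((l2_summable x).mul_left (C ^ 2)))

@[simp] theorem dg_apply (t : ℕ → (G →L[ℂ] G)) (C : ℝ) (h : ∀ i, ‖t i‖ ≤ C) (x : L2 G) (i : ℕ) :
    dg t C h x i = t i (x i) := rfl

theorem dg_norm (t : ℕ → (G →L[ℂ] G)) (C : ℝ) (h : ∀ i, ‖t i‖ ≤ C) : ‖dg t C h‖ ≤ C :=
  LinearMap.mkContinuous_norm_le _ ((norm_nonneg _).trans (h 0)) _

/-- the unilateral shift -/
noncomputable def sh : L2 G →L[ℂ] L2 G :=
  LinearMap.mkContinuous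
    { toFun := fun x => ⟨fun i => Nat.casesOn i 0 (fun j => x j), l2_mem (by
        rw [← summable_nat_add_iff 1]
        exact l2_summable x)⟩
      map_add' := fun x y => by
        ext i
        cases i with
        | zero => show (0 : G) = 0 + 0; simp
        | succ j => show (x + y : L2 G) j = x j + y j; simp
      map_smul' := fun c x => by
        ext i
        cases i with
        | zero => show (0 : G) = c • 0; simp
        | succ j => show (c • x : L2 G) j = c • x j; simp } 1 (by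
    intro x
    refine l2_le (by positivity) ?_
    rw [one_mul, l2_norm_sq, Summable.tsum_eq_zero_add]
    · show ‖(0 : G)‖ ^ 2 + ∑' j, ‖x j‖ ^ 2 ≤ _
      simp
    · rw [← summable_nat_add_iff 1]
      exact l2_summable x)

@[simp] theorem sh_zero (x : L2 G) : sh x 0 = 0 := rfl
@[simp] theorem sh_succ (x : L2 G) (i : ℕ) : sh x (i + 1) = x i := rfl

/-- the backward shift -/
noncomputable def bs : L2 G →L[ℂ] L2 G :=
  LinearMap.mkContinuous
    { toFun := fun x => ⟨fun i => x (i + 1), l2_mem (by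
        exact (summable_nat_add_iff (f := fun i => ‖x i‖ ^ 2) 1).2 (l2_summable x))⟩
      map_add' := fun x y => by
        ext i
        show (x + y : L2 G) (i + 1) = x (i + 1) + y (i + 1)
        simp
      map_smul' := fun c x => by
        ext i
        show (c • x : L2 G) (i + 1) = c • x (i + 1)
        simp } 1 (by
    intro x
    refine l2_le (by positivity) ?_
    rw [one_mul, l2_norm_sq]
    rw [(l2_summable x).tsum_eq_zero_add]
    show ∑' j, ‖x (j + 1)‖ ^ 2 ≤ _
    have : 0 ≤ ‖x 0‖ ^ 2 := by positivity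
    linarith)

@[simp] theorem bs_apply (x : L2 G) (i : ℕ) : bs x i = x (i + 1) := rfl

theorem star_dg (t : ℕ → (G →L[ℂ] G)) (C : ℝ) (h : ∀ i, ‖t i‖ ≤ C) :
    star (dg t C h) = dg (fun i => star (t i)) C (fun i => by rw [norm_star]; exact h i) := by
  symm
  rw [ContinuousLinearMap.star_eq_adjoint, ContinuousLinearMap.eq_adjoint_iff]
  intro x y
  rw [lp.inner_eq_tsum, lp.inner_eq_tsum]
  refine tsum_congr fun i => ?_
  rw [dg_apply, dg_apply, ContinuousLinearMap.star_eq_adjoint,
    ContinuousLinearMap.adjoint_inner_left]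

theorem inner_sh_aux (x y : L2 G) : ∑' i, ⟪bs x i, y i⟫_ℂ = ∑' i, ⟪x i, sh y i⟫_ℂ := by
  have h0 : Summable fun i => ⟪x i, sh y i⟫_ℂ := lp.summable_inner x (sh y)
  have h : ∑' i, ⟪x i, sh y i⟫_ℂ = ⟪x 0, sh y 0⟫_ℂ + ∑' i, ⟪x (i + 1), sh y (i + 1)⟫_ℂ :=
    h0.tsum_eq_zero_add
  rw [h, sh_zero, inner_zero_right, zero_add]
  exact tsum_congr fun i => by rw [sh_succ, bs_apply]

theorem star_sh : star (sh : L2 G →L[ℂ] L2 G) = bs := by
  symm
  rw [ContinuousLinearMap.star_eq_adjoint, ContinuousLinearMap.eq_adjoint_iff]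
  intro x y
  rw [lp.inner_eq_tsum, lp.inner_eq_tsum]
  exact inner_sh_aux x y

theorem bs_mul_sh : (bs : L2 G →L[ℂ] L2 G) * sh = 1 := by
  ext x i
  rfl

/-- constant diagonal operators -/
noncomputable def am (t : G →L[ℂ] G) : L2 G →L[ℂ] L2 G := dg (fun _ => t) ‖t‖ (fun _ => le_rfl)

@[simp] theorem am_apply (t : G →L[ℂ] G) (x : L2 G) (i : ℕ) : am t x i = t (x i) := rfl

/-- coordinate projections -/
noncomputable def pr (p : ℕ → Prop) [DecidablePred p] : L2 G →L[ℂ] L2 G :=
  dg (fun i => if p i then 1 else 0) 1 (fun i => by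
    split_ifs
    · exact ContinuousLinearMap.norm_id_le
    · simp)

theorem pr_apply (p : ℕ → Prop) [DecidablePred p] (x : L2 G) (i : ℕ) :
    pr p x i = if p i then x i else 0 := by
  show (if p i then (1 : G →L[ℂ] G) else 0) (x i) = _
  split_ifs <;> simp

theorem pr_norm (p : ℕ → Prop) [DecidablePred p] : ‖(pr p : L2 G →L[ℂ] L2 G)‖ ≤ 1 :=
  dg_norm _ _ _

theorem star_pr (p : ℕ → Prop) [DecidablePred p] : star (pr p : L2 G →L[ℂ] L2 G) = pr p := by
  rw [pr, star_dg]
  ext x i
  simp only [dg_apply]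
  split_ifs <;> simp

theorem pr_mul_pr (p q : ℕ → Prop) [DecidablePred p] [DecidablePred q] :
    (pr p : L2 G →L[ℂ] L2 G) * pr q = pr (fun i => p i ∧ q i) := by
  ext x i
  simp only [mul_apply_eq_comp, pr_apply]
  split_ifs <;> simp_all

theorem am_mul (s t : G →L[ℂ] G) : am (s * t) = am s * am t := by
  ext x i
  simp

theorem am_add (s t : G →L[ℂ] G) : am (s + t) = am s + am t := by
  ext x i
  simp

theorem am_sub (s t : G →L[ℂ] G) : am (s - t) = am s - am t := by
  ext x i
  simp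

theorem am_neg (t : G →L[ℂ] G) : am (-t) = - am t := by
  ext x i
  simp

theorem am_one : am (1 : G →L[ℂ] G) = 1 := by
  ext x i
  simp

theorem am_zero : am (0 : G →L[ℂ] G) = 0 := by
  ext x i
  simp

theorem am_smul (c : ℂ) (t : G →L[ℂ] G) : am (c • t) = c • am t := by
  ext x i
  simp

theorem star_am (t : G →L[ℂ] G) : star (am t) = am (star t) := by
  rw [am, star_dg]
  rfl

theorem am_norm (t : G →L[ℂ] G) : ‖am t‖ ≤ ‖t‖ := dg_norm _ _ _

theorem am_pr (t : G →L[ℂ] G) (p : ℕ → Prop) [DecidablePred p] :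
    am t * pr p = pr p * am t := by
  ext x i
  simp only [mul_apply_eq_comp, pr_apply, am_apply]
  split_ifs <;> simp

theorem am_sh (t : G →L[ℂ] G) : am t * sh = sh * am t := by
  ext x i
  cases i with
  | zero => simp
  | succ j => simp

theorem am_bs (t : G →L[ℂ] G) : am t * bs = bs * am t := by
  ext x i
  simp

theorem pr_true : (pr (fun _ => True) : L2 G →L[ℂ] L2 G) = 1 := by
  ext x i
  simp [pr_apply]

theorem sh_mul_bs : (sh : L2 G →L[ℂ] L2 G) * bs = 1 - pr (fun i => i = 0) := by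
  ext x i
  cases i with
  | zero => simp [pr_apply]
  | succ j => simp [pr_apply]

theorem sh_pr (p : ℕ → Prop) [DecidablePred p] (q : ℕ → Prop) [DecidablePred q]
    (h : ∀ i, q (i + 1) ↔ p i) :
    (sh : L2 G →L[ℂ] L2 G) * pr p = pr q * sh := by
  ext x i
  cases i with
  | zero => simp [pr_apply]
  | succ j => simp [pr_apply, h]

theorem pr_bs (p : ℕ → Prop) [DecidablePred p] (q : ℕ → Prop) [DecidablePred q]
    (h : ∀ i, q (i + 1) ↔ p i) :
    pr p * (bs : L2 G →L[ℂ] L2 G) = bs * pr q := by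
  ext x i
  simp [pr_apply, h]

end Pool.Agent.H231R3
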