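import Mathlib
import Pool.Agent.Helper234.BrownE
import Pool.Agent.Helper436.SM.ExR
import Pool.Agent.Helper278.CEStmt

set_option autoImplicit false

open scoped InnerProductSpace ComplexOrder Topology
open Filter

namespace Pool.Agent.H231R3.Ucp

open Pool.Agent.Helper234.Brown
open Pool.Agent.Helper278 Pool.Agent.Helper278.CE
open Pool.Agent.Helper436.SM Pool.Agent.Helper436.SM.ExR

section mu

variable {A : Type*} [Ring A] [StarRing A] [Algebra ℂ A] [StarModule ℂ A]

/-- matrix units give a homomorphism from the 2 by 2 matrices -/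
noncomputable def muHom
    (e : Fin 2 → Fin 2 → A) (hm : ∀ a b c d, e a b * e c d = if b = c then e a d else 0)
    (hs : ∀ a b, star (e a b) = e b a) (h1 : e 0 0 + e 1 1 = 1) :
    Matrix (Fin 2) (Fin 2) ℂ →⋆ₐ[ℂ] A where
  toFun m := ∑ a, ∑ b, m a b • e a b
  map_one' := by
    simp [Fin.sum_univ_two, Matrix.one_apply, h1]
  map_mul' x y := by
    simp only [Fin.sum_univ_two, Matrix.mul_apply, add_mul, mul_add, smul_mul_smul_comm, hm]
    simp [add_smul]
    abel
  map_zero' := by simp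
  map_add' x y := by
    simp only [Matrix.add_apply, add_smul, Finset.sum_add_distrib]
  commutes' r := by
    simp only [Fin.sum_univ_two, Matrix.algebraMap_matrix_apply]
    simp [Algebra.algebraMap_eq_smul_one, ← smul_add, h1]
  map_star' x := by
    simp only [Fin.sum_univ_two, Matrix.star_apply, star_add, star_smul, hs]
    abel

theorem muHom_apply
    (e : Fin 2 → Fin 2 → A) (hm : ∀ a b c d, e a b * e c d = if b = c then e a d else 0)
    (hs : ∀ a b, star (e a b) = e b a) (h1 : e 0 0 + e 1 1 = 1) (m : Matrix (Fin 2) (Fin 2) ℂ) :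
    muHom e hm hs h1 m = ∑ a, ∑ b, m a b • e a b := rfl

/-- matrix units from two anticommuting symmetries -/
theorem exists_muHom (Z X : A) (hZ : Z * Z = 1) (hX : X * X = 1) (hZX : Z * X = -(X * Z))
    (hZs : star Z = Z) (hXs : star X = X) :
    ∃ f : Matrix (Fin 2) (Fin 2) ℂ →⋆ₐ[ℂ] A, (∀ y : A, y * Z = Z * y → y * X = X * y →
      ∀ m, f m * y = y * f m) ∧ (∃ m, f m = Z) ∧ ∃ m, f m = X := by
  set e : A := (1 / 2 : ℂ) • (1 + Z) with he
  have hee : e * e = e := by
    rw [he, smul_mul_smul_comm, add_mul, mul_add, mul_add, hZ, one_mul, mul_one, one_mul]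
    rw [show (1 + Z + (Z + 1) : A) = (2 : ℂ) • (1 + Z) by rw [two_smul]; abel, smul_smul]
    norm_num
  have hes : star e = e := by
    rw [he, star_smul, star_add, star_one, hZs]
    congr 1
    simp
  have heX : e * X * e = 0 := by
    have h1 : (1 + Z) * X * (1 + Z) = 0 := by
      rw [add_mul, one_mul, hZX, add_mul, neg_mul, mul_add, mul_one, mul_add, mul_one,
        mul_assoc, hZ, mul_one]
      abel
    rw [he, smul_mul_assoc, smul_mul_smul_comm, h1, smul_zero]
  have hXeX : X * e * X = 1 - e := by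
    have h1 : X * (1 + Z) * X = 1 - Z := by
      rw [mul_add, mul_one, add_mul, hX, mul_assoc, hZX, mul_neg, ← mul_assoc, hX, one_mul]
      abel
    have h2 : (1 : A) - (1 / 2 : ℂ) • (1 : A) = (1 / 2 : ℂ) • (1 : A) := by
      rw [sub_eq_iff_eq_add, ← add_smul]; norm_num
    rw [he, mul_smul_comm, smul_mul_assoc, h1, smul_sub, smul_add, ← sub_sub, h2]
  have hs1 : ∀ a b : Fin 2, star (X ^ (a : ℕ) * e * X ^ (b : ℕ)) =
      X ^ (b : ℕ) * e * X ^ (a : ℕ) := by
    intro a b
    rw [star_mul, star_mul, star_pow, star_pow, hXs, hes, mul_assoc]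
  have hm1 : ∀ a b c d : Fin 2, (X ^ (a : ℕ) * e * X ^ (b : ℕ)) * (X ^ (c : ℕ) * e * X ^ (d : ℕ)) =
      if b = c then X ^ (a : ℕ) * e * X ^ (d : ℕ) else 0 := by
    intro a b c d
    have k1 : (X ^ (a : ℕ) * e * X ^ (b : ℕ)) * (X ^ (c : ℕ) * e * X ^ (d : ℕ)) =
        X ^ (a : ℕ) * (e * (X ^ (b : ℕ) * X ^ (c : ℕ)) * e) * X ^ (d : ℕ) := by
      simp only [mul_assoc]
    rw [k1]
    fin_cases b <;> fin_cases c <;> simp [hee, heX, hX]
  have h11 : X ^ ((0 : Fin 2) : ℕ) * e * X ^ ((0 : Fin 2) : ℕ) +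
      X ^ ((1 : Fin 2) : ℕ) * e * X ^ ((1 : Fin 2) : ℕ) = 1 := by
    simp [hXeX]
  refine ⟨muHom (fun a b => X ^ (a : ℕ) * e * X ^ (b : ℕ)) hm1 hs1 h11, ?_, ?_, ?_⟩
  · intro y h1 h2 m
    have h3 : Commute y e := by
      rw [he]
      exact ((Commute.one_right y).add_right h1).smul_right _
    have h4 : ∀ k : ℕ, Commute y (X ^ k) := fun k => Commute.pow_right h2 k
    have h5 : ∀ a b : Fin 2, Commute y (X ^ (a : ℕ) * e * X ^ (b : ℕ)) := fun a b =>
      ((h4 _).mul_right h3).mul_right (h4 _)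
    rw [muHom_apply]
    symm
    have : Commute y (∑ a : Fin 2, ∑ b : Fin 2, m a b • (X ^ (a : ℕ) * e * X ^ (b : ℕ))) :=
      Commute.sum_right _ _ _ fun a _ => Commute.sum_right _ _ _ fun b _ => (h5 a b).smul_right _
    exact this
  · refine ⟨!![1, 0; 0, -1], ?_⟩
    rw [muHom_apply]
    simp only [Fin.sum_univ_two]
    have h3 : e + e = 1 + Z := by
      rw [he, ← add_smul]; norm_num
    have h4 : Z = e - (1 - e) := by
      rw [sub_sub_eq_add_sub, h3]; abel
    simp [hXeX]
    rw [h4]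
    abel
  · refine ⟨!![0, 1; 1, 0], ?_⟩
    rw [muHom_apply]
    simp only [Fin.sum_univ_two]
    simp
    have h1 : e * X = X * (1 - e) := by
      rw [← hXeX, ← mul_assoc, ← mul_assoc, hX, one_mul]
    rw [h1]
    rw [mul_sub, mul_one]
    abel

end mu

end Pool.Agent.H231R3.Ucp
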