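import Mathlib
import Pool.Agent.H231R3.UcpExR

set_option autoImplicit false

open scoped InnerProductSpace ComplexOrder Topology
open Filter

namespace Pool.Agent.H231R3.Ucp

open Pool.Agent.Helper234.Brown
open Pool.Agent.Helper278 Pool.Agent.Helper278.CE
open Pool.Agent.Helper436.SM Pool.Agent.Helper436.SM.ExR

/-- the trace in the format of the statement -/
noncomputable def tN : PTr (Elt NP) where
  tr := trP
  tr_one := TP.map_one
  tr_comm := TP.tracial
  tr_nonneg x := by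
    rw [trP_star_mul, inner_self_eq_norm_sq_to_K]
    have h2 : (0 : ℝ) ≤ ‖(x : EllTwo VV →L[ℂ] EllTwo VV) (bb 0)‖ ^ 2 := sq_nonneg _
    have h3 := Complex.zero_le_real.2 h2
    rw [Complex.ofReal_pow] at h3
    exact h3

theorem n2_tN (x : Elt NP) : tN.n2 x = ‖(x : EllTwo VV →L[ℂ] EllTwo VV) (bb 0)‖ := by
  have h1 : (tN.tr (star x * x)).re = ‖(x : EllTwo VV →L[ℂ] EllTwo VV) (bb 0)‖ ^ 2 := by
    show (trP (star x * x)).re = _
    rw [trP_star_mul, inner_self_eq_norm_sq_to_K]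
    norm_cast
  rw [PTr.n2, h1, Real.sqrt_sq (norm_nonneg _)]

theorem norm_sop (s : VV → ℂ) (hs : ∀ h, ‖s h‖ = 1) (v : VV) (f : EllTwo VV) :
    ‖sop s hs v f‖ = ‖f‖ := by
  have h1 : (0 : ℝ) < (2 : ENNReal).toReal := by norm_num
  rw [lp.norm_eq_tsum_rpow h1, lp.norm_eq_tsum_rpow h1]
  congr 1
  rw [← (Equiv.addRight v).tsum_eq (fun h => ‖f h‖ ^ (2 : ENNReal).toReal)]
  refine tsum_congr fun h => ?_
  rw [sop_apply, norm_mul, hs, one_mul]
  rfl

theorem norm_Ro (w : VV) (f : EllTwo VV) : ‖Ro w f‖ = ‖f‖ := norm_sop _ _ w f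

theorem cauchy_all {K : Type*} [NormedAddCommGroup K] [InnerProductSpace ℂ K]
    (x : ℕ → K →L[ℂ] K) (hx : ∀ n, ‖x n‖ ≤ 1) (D : Set K)
    (hD : Dense ((Submodule.span ℂ D : Submodule ℂ K) : Set K))
    (h : ∀ d ∈ D, CauchySeq fun n => x n d) (f : K) : CauchySeq fun n => x n f := by
  have h1 : ∀ g ∈ Submodule.span ℂ D, CauchySeq fun n => x n g := by
    intro g hg
    induction hg using Submodule.span_induction with
    | mem y hy => exact h y hy
    | zero => simpa using (tendsto_const_nhds (x := (0 : K)) (f := (atTop : Filter ℕ))).cauchySeq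
    | add y z _ _ hy hz =>
      have h2 := hy.add hz
      have e : (fun n => x n (y + z)) = (fun n => x n y) + fun n => x n z := by
        funext n
        exact map_add (x n) y z
      rw [e]
      exact h2
    | smul c y _ hy =>
      have h2 : CauchySeq (c • fun n => x n y) := (uniformContinuous_const_smul c).comp_cauchySeq hy
      have e : (fun n => x n (c • y)) = c • fun n => x n y := by
        funext n
        exact map_smul (x n) c y
      rw [e]
      exact h2
  rw [Metric.cauchySeq_iff]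
  intro ε hε
  obtain ⟨g, hg, hfg⟩ := Metric.dense_iff.1 hD f (ε / 3) (by positivity)
  have h2 := Metric.cauchySeq_iff.1 (h1 g hfg) (ε / 3) (by positivity)
  obtain ⟨N, hN⟩ := h2
  refine ⟨N, fun m hm n hn => ?_⟩
  have h3 := hN m hm n hn
  rw [dist_eq_norm] at h3 ⊢
  have h4 : ‖f - g‖ < ε / 3 := by
    rw [← dist_eq_norm, dist_comm]
    exact hg
  have h5 : ∀ k, ‖x k (f - g)‖ ≤ ‖f - g‖ := fun k => by
    refine ((x k).le_opNorm _).trans ?_
    exact mul_le_of_le_one_left (norm_nonneg _) (hx k)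
  have e : x m f - x n f = x m (f - g) + (x m g - x n g) - x n (f - g) := by
    rw [map_sub, map_sub]; abel
  rw [e]
  refine lt_of_le_of_lt (norm_sub_le _ _) ?_
  have h6 := norm_add_le (x m (f - g)) (x m g - x n g)
  have h7 := h5 m
  have h8 := h5 n
  linarith

theorem isVN_tN : IsVN tN := by
  refine ⟨TP.faithful, ?_⟩
  intro x hx hc
  have hx' : ∀ n, ‖(x n : EllTwo VV →L[ℂ] EllTwo VV)‖ ≤ 1 := hx
  have hD : Dense ((Submodule.span ℂ (Set.range bb) : Submodule ℂ (EllTwo VV)) :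
      Set (EllTwo VV)) := by
    rw [Submodule.dense_iff_topologicalClosure_eq_top]
    exact bb.dense_span
  have hb : ∀ d ∈ Set.range bb,
      CauchySeq fun n => (x n : EllTwo VV →L[ℂ] EllTwo VV) d := by
    rintro _ ⟨w, rfl⟩
    rw [Metric.cauchySeq_iff]
    intro ε hε
    obtain ⟨N, hN⟩ := hc ε hε
    refine ⟨N, fun m hm n hn => ?_⟩
    have h1 := hN m hm n hn
    rw [n2_tN] at h1
    rw [dist_eq_norm, apply_bb _ (x m).2, apply_bb _ (x n).2, ← map_sub, norm_Ro]
    exact h1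
  have hall := cauchy_all (fun n => (x n : EllTwo VV →L[ℂ] EllTwo VV)) hx' _ hD hb
  choose y hy using fun f => cauchySeq_tendsto_of_complete (hall f)
  have hbd : Bornology.IsBounded (Set.range fun n => (x n : EllTwo VV →L[ℂ] EllTwo VV)) := by
    rw [isBounded_iff_forall_norm_le]
    refine ⟨1, ?_⟩
    rintro _ ⟨n, rfl⟩
    exact hx' n
  let Y : EllTwo VV →L[ℂ] EllTwo VV :=
    ContinuousLinearMap.ofTendstoOfBoundedRange (l := atTop) y
      (fun n => (x n : EllTwo VV →L[ℂ] EllTwo VV)) (tendsto_pi_nhds.2 hy) hbd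
  have hY : ∀ f, Y f = y f := fun f => rfl
  have hYn : ‖Y‖ ≤ 1 := by
    refine ContinuousLinearMap.opNorm_le_bound _ zero_le_one fun f => ?_
    rw [hY, one_mul]
    refine le_of_tendsto (hy f).norm (Eventually.of_forall fun n => ?_)
    refine ((x n : EllTwo VV →L[ℂ] EllTwo VV).le_opNorm f).trans ?_
    exact mul_le_of_le_one_left (norm_nonneg _) (hx' n)
  have hYm : Y ∈ NP := by
    rw [mem_NP]
    have key : ∀ s : EllTwo VV →L[ℂ] EllTwo VV, (∀ n, s * (x n : EllTwo VV →L[ℂ] EllTwo VV) =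
        (x n : EllTwo VV →L[ℂ] EllTwo VV) * s) → s * Y = Y * s := by
      intro s hs
      ext1 f
      show s (y f) = y (s f)
      refine tendsto_nhds_unique ((s.continuous.tendsto _).comp (hy f)) ?_
      refine (hy (s f)).congr fun n => ?_
      exact (congrArg (fun z : EllTwo VV →L[ℂ] EllTwo VV => z f) (hs n)).symm
    intro s hs
    refine ⟨key s fun n => ?_, key (star s) fun n => ?_⟩
    · exact (((mem_NP _).1 (x n).2) s hs).1
    · exact (((mem_NP _).1 (x n).2) s hs).2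
  refine ⟨⟨Y, hYm⟩, hYn, ?_⟩
  have h1 : ∀ n, tN.n2 (x n - ⟨Y, hYm⟩) =
      ‖(x n : EllTwo VV →L[ℂ] EllTwo VV) (bb 0) - y (bb 0)‖ := by
    intro n
    rw [n2_tN]
    rfl
  simp only [h1]
  have h2 := (hy (bb 0)).sub_const (y (bb 0))
  rw [sub_self] at h2
  simpa using h2.norm

/-- Pauli unitaries as elements -/
noncomputable def WN (v : VV) : Elt NP := ⟨Wo v, Wo_mem v⟩

theorem WN_zero : WN 0 = 1 := Subtype.ext Wo_zero
theorem WN_mul (v w : VV) : WN v * WN w = sg (bf v w) • WN (v + w) := Subtype.ext (Wo_mul v w)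
theorem WN_star (v : VV) : star (WN v) = sg (bf v v) • WN v := Subtype.ext (star_Wo v)

theorem sum_WN (F : Finset VV) (c : VV → ℂ) :
    ((∑ v ∈ F, c v • WN v : Elt NP) : EllTwo VV →L[ℂ] EllTwo VV) (bb 0) =
      ∑ v ∈ F, c v • bb v := by
  classical
  induction F using Finset.induction_on with
  | empty => rw [Finset.sum_empty, Finset.sum_empty]; rfl
  | insert v F hv ih =>
    rw [Finset.sum_insert hv, Finset.sum_insert hv, ← ih, ← Wo_bb v]
    rfl

theorem bf_single (k l : ℕ) (a b : ZMod 2 × ZMod 2) :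
    bf (Finsupp.single k a) (Finsupp.single l b) = if k = l then a.2 * b.1 else 0 := by
  unfold bf
  rw [Finsupp.sum_single_index]
  · split_ifs with h
    · subst h; rw [Finsupp.single_eq_same]
    · rw [Finsupp.single_eq_of_ne h]
      simp
  · simp

theorem exists_j (k : ℕ) : ∃ f : Matrix (Fin 2) (Fin 2) ℂ →⋆ₐ[ℂ] Elt NP,
    (∀ y : Elt NP, (∀ c, y * WN (Finsupp.single k c) = WN (Finsupp.single k c) * y) →
      ∀ m, f m * y = y * f m) ∧ ∀ c, ∃ m, f m = WN (Finsupp.single k c) := by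
  set Z := WN (Finsupp.single k (0, 1)) with hZ
  set X := WN (Finsupp.single k (1, 0)) with hX
  have hZZ : Z * Z = 1 := by
    rw [hZ, WN_mul, bf_single, if_pos rfl]
    simp [Helper436.SM.sg, VV_add_self, WN_zero]
  have hXX : X * X = 1 := by
    rw [hX, WN_mul, bf_single, if_pos rfl]
    simp [Helper436.SM.sg, VV_add_self, WN_zero]
  have hXZ : X * Z = WN (Finsupp.single k (1, 0) + Finsupp.single k (0, 1)) := by
    rw [hX, hZ, WN_mul, bf_single, if_pos rfl]
    simp [Helper436.SM.sg]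
  have hZX : Z * X = -(X * Z) := by
    rw [hXZ, hX, hZ, WN_mul, bf_single, if_pos rfl, add_comm]
    simp [Helper436.SM.sg]
  have hZs : star Z = Z := by
    rw [hZ, WN_star, bf_single, if_pos rfl]
    simp [Helper436.SM.sg]
  have hXs : star X = X := by
    rw [hX, WN_star, bf_single, if_pos rfl]
    simp [Helper436.SM.sg]
  obtain ⟨f, h1, ⟨mZ, hmZ⟩, ⟨mX, hmX⟩⟩ := exists_muHom Z X hZZ hXX hZX hZs hXs
  refine ⟨f, fun y hy => h1 y (hy _) (hy _), ?_⟩
  rintro ⟨c, d⟩
  have hcases : ∀ a : ZMod 2, a = 0 ∨ a = 1 := by decide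
  rcases hcases c with rfl | rfl <;> rcases hcases d with rfl | rfl
  · refine ⟨1, ?_⟩
    rw [map_one, show ((0, 0) : ZMod 2 × ZMod 2) = 0 from rfl, Finsupp.single_zero, WN_zero]
  · exact ⟨mZ, hmZ⟩
  · exact ⟨mX, hmX⟩
  · refine ⟨mX * mZ, ?_⟩
    rw [map_mul, hmX, hmZ, hXZ, ← Finsupp.single_add]
    simp

theorem exists_hyperfinite :
    ∃ (R : Type) (_ : CStarAlgebra R) (t : PTr R), IsHyperfinite t := by
  choose j hj1 hj2 using exists_j
  refine ⟨Elt NP, inferInstance, tN, ⟨isVN_tN, j, ?_, ?_⟩⟩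
  · intro k l hkl x y
    refine hj1 k (j l y) (fun c => ?_) x
    refine hj1 l (WN (Finsupp.single k c)) (fun d => ?_) y
    rw [WN_mul, WN_mul, bf_single, bf_single, if_neg hkl, if_neg (Ne.symm hkl), add_comm]
  · intro x ε hε
    have hW : ∀ v, WN v ∈ Algebra.adjoin ℂ (⋃ k, Set.range (j k)) := by
      intro v
      induction v using Finsupp.induction with
      | zero => rw [WN_zero]; exact one_mem _
      | single_add k c v _ _ ih =>
        have h1 : WN (Finsupp.single k c) ∈ Algebra.adjoin ℂ (⋃ k, Set.range (j k)) := by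
          obtain ⟨m, hm⟩ := hj2 k c
          rw [← hm]
          exact Algebra.subset_adjoin (Set.mem_iUnion.2 ⟨k, m, rfl⟩)
        have h2 : WN (Finsupp.single k c + v) =
            sg (bf (Finsupp.single k c) v) • (WN (Finsupp.single k c) * WN v) := by
          rw [WN_mul, smul_smul, ← pow_two, pow_two, sg_sq, one_smul]
        rw [h2]
        exact Subalgebra.smul_mem _ (mul_mem h1 ih) _
    have h1 := bb.hasSum_repr ((x : EllTwo VV →L[ℂ] EllTwo VV) (bb 0))
    obtain ⟨F, hF⟩ := (Metric.tendsto_nhds.1 h1 ε hε).exists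
    refine ⟨∑ v ∈ F, (bb.repr ((x : EllTwo VV →L[ℂ] EllTwo VV) (bb 0)) v) • WN v, ?_, ?_⟩
    · exact Subalgebra.sum_mem _ fun v _ => Subalgebra.smul_mem _ (hW v) _
    · rw [n2_tN]
      have h2 : ((x - ∑ v ∈ F, (bb.repr ((x : EllTwo VV →L[ℂ] EllTwo VV) (bb 0)) v) • WN v :
          Elt NP) : EllTwo VV →L[ℂ] EllTwo VV) (bb 0) =
          (x : EllTwo VV →L[ℂ] EllTwo VV) (bb 0) -
            ∑ v ∈ F, (bb.repr ((x : EllTwo VV →L[ℂ] EllTwo VV) (bb 0)) v) • bb v := by
        exact congrArg (fun z => (x : EllTwo VV →L[ℂ] EllTwo VV) (bb 0) - z) (sum_WN F _)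
      rw [h2, ← dist_eq_norm, dist_comm]
      exact hF

end Pool.Agent.H231R3.Ucp
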