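import Mathlib
import Pool.Agent.Helper234.BrownDefs
import Pool.Agent.Helper234.BrownH

set_option autoImplicit false

open scoped BoundedContinuousFunction

namespace Pool.Agent.H231R3.Ucp

open Pool.Agent.Helper234.Brown

universe u v

/-- `φ` is a unital completely positive map on the C*-algebra `A`: it is linear, `φ 1 = 1`, and
applied entrywise it maps every positive `k × k` matrix over `A` (a matrix of the form `aᴴ a`) to a
positive matrix. -/
def IsUcp {A : Type u} [CStarAlgebra A] (φ : A →ₗ[ℂ] A) : Prop :=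
  φ 1 = 1 ∧ ∀ (k : ℕ) (a : Matrix (Fin k) (Fin k) A), ∃ b : Matrix (Fin k) (Fin k) A,
    (a.conjTranspose * a).map φ = b.conjTranspose * b

/-- `Φ` is the ultraproduct map `(φ n)_U` on the tracial ultrapower: `φ n` maps every norm bounded
sequence `x` to a norm bounded sequence `y`, and `Φ` maps the class of `x` to the class of `y`. The
existence of `Φ` says that this is well defined. -/
def IsUltraMap {R : Type u} [CStarAlgebra R] (t : PTr R) (U : Ultrafilter ℕ)
    (φ : ℕ → (R →ₗ[ℂ] R)) (Φ : Ultrapower t U → Ultrapower t U) : Prop :=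
  ∀ x : ℕ →ᵇ R, ∃ y : ℕ →ᵇ R, (∀ n, y n = φ n (x n)) ∧ Φ (cls t U x) = cls t U y

/-- The unital star homomorphism `π` from `(M, s)` to the tracial ultrapower of `(R, t)` is an
embedding: it is injective and preserves the trace and the 2-norm (which contains normality). -/
structure IsEmbedding {R : Type u} [CStarAlgebra R] (t : PTr R) (U : Ultrafilter ℕ) {M : Type v}
    [CStarAlgebra M] (s : PTr M) (π : M →⋆ₐ[ℂ] Ultrapower t U) : Prop where
  injective : Function.Injective π
  trace : ∀ x, utr t U (π x) = s.tr x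
  norm : ∀ x, un2 t U (π x) = s.n2 x

/-- There are a separable II₁ factor `M`, two embeddings `π₁`, `π₂` of `M` in the tracial ultrapower
of `(R, t)` along `U` and a sequence of unital completely positive maps `φ n` on `R` whose
ultraproduct map `Φ` is well defined and satisfies `Φ ∘ π₁ = π₂`, such that no unitary of the
ultrapower conjugates `π₁` to `π₂`. -/
def UcpNotUnitary {R : Type u} [CStarAlgebra R] (t : PTr R) (U : Ultrafilter ℕ) : Prop :=
  ∃ (M : Type u) (_ : CStarAlgebra M) (s : PTr M) (π₁ π₂ : M →⋆ₐ[ℂ] Ultrapower t U)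
    (φ : ℕ → (R →ₗ[ℂ] R)) (Φ : Ultrapower t U → Ultrapower t U),
    IsIIOneFactor s ∧ IsSep s ∧ IsEmbedding t U s π₁ ∧ IsEmbedding t U s π₂ ∧
    (∀ n, IsUcp (φ n)) ∧ IsUltraMap t U φ Φ ∧ (∀ x, Φ (π₁ x) = π₂ x) ∧
    ∀ u ∈ unitary (Ultrapower t U), ¬ ∀ x, u * π₁ x * star u = π₂ x

end Pool.Agent.H231R3.Ucp
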