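import Mathlib
import Pool.Agent.H231R3.UcpStmt
import Pool.Agent.Helper234.BrownZD

set_option autoImplicit false

open scoped BoundedContinuousFunction ComplexOrder Topology InnerProductSpace
open Filter

namespace Pool.Agent.H231R3.Ucp

open Pool.Agent.Helper234.Brown

universe u v

section

variable {R : Type u} [CStarAlgebra R]

lemma exists_sq_add_aux {A : Type*} [NonUnitalCStarAlgebra A] (c₀ c₁ : A) :
    ∃ b : A, star c₀ * c₀ + star c₁ * c₁ = star b * b := by
  let _ : PartialOrder A := CStarAlgebra.spectralOrder A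
  have _ : StarOrderedRing A := CStarAlgebra.spectralOrderedRing A
  have h := add_nonneg (star_mul_self_nonneg c₀) (star_mul_self_nonneg c₁)
  rw [CStarAlgebra.nonneg_iff_eq_star_mul_self] at h
  exact h

lemma exists_sq_add {k : ℕ} (c₀ c₁ : Matrix (Fin k) (Fin k) R) :
    ∃ b : Matrix (Fin k) (Fin k) R,
      c₀.conjTranspose * c₀ + c₁.conjTranspose * c₁ = b.conjTranspose * b := by
  let _ : PartialOrder R := CStarAlgebra.spectralOrder R
  have _ : StarOrderedRing R := CStarAlgebra.spectralOrderedRing R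
  exact exists_sq_add_aux (A := CStarMatrix (Fin k) (Fin k) R) (CStarMatrix.ofMatrix c₀)
    (CStarMatrix.ofMatrix c₁)

variable (j : ℕ → (Matrix (Fin 2) (Fin 2) ℂ →⋆ₐ[ℂ] R))

/-- compression to the first corner followed by amplification -/
noncomputable def ph : R →ₗ[ℂ] R where
  toFun x := j 0 (mu 0 0) * x * j 0 (mu 0 0) + j 0 (mu 1 0) * x * j 0 (mu 0 1)
  map_add' x y := by
    simp only [mul_add, add_mul]
    abel
  map_smul' c x := by
    simp only [mul_smul_comm, smul_mul_assoc, smul_add, RingHom.id_apply]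

lemma ph_apply (x : R) :
    ph j x = j 0 (mu 0 0) * x * j 0 (mu 0 0) + j 0 (mu 1 0) * x * j 0 (mu 0 1) := rfl

lemma isUcp_ph : IsUcp (ph j) := by
  constructor
  · rw [ph_apply, mul_one, mul_one, ← map_mul, ← map_mul, mu_mul, mu_mul, if_pos rfl, if_pos rfl,
      ← map_add, show mu 0 0 + mu 1 1 = 1 by rw [← sum_mu, Fin.sum_univ_two], map_one]
  · intro k a
    obtain ⟨b, hb⟩ := exists_sq_add (a.map (fun x => x * j 0 (mu 0 0)))
      (a.map (fun x => x * j 0 (mu 0 1)))
    refine ⟨b, ?_⟩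
    rw [← hb]
    ext p q
    simp only [Matrix.map_apply, Matrix.add_apply, Matrix.mul_apply, Matrix.conjTranspose_apply,
      ph_apply, star_mul, ← map_star, star_mu]
    rw [Finset.mul_sum, Finset.mul_sum, Finset.sum_mul, Finset.sum_mul]
    simp only [mul_assoc]

variable {j} {t : PTr R} {S : R →⋆ₐ[ℂ] R}

lemma ph_blk (h : IsShift t j S) (hv : IsVN t) (x y : R) : ph j (blk h hv x y) = blk h hv x x := by
  show j 0 (mu 0 0) * (j 0 (mu 0 0) * S x + j 0 (mu 1 1) * S y) * j 0 (mu 0 0) +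
    j 0 (mu 1 0) * (j 0 (mu 0 0) * S x + j 0 (mu 1 1) * S y) * j 0 (mu 0 1) =
    j 0 (mu 0 0) * S x + j 0 (mu 1 1) * S x
  have e1 : j 0 (mu 0 0) * (j 0 (mu 0 0) * S x + j 0 (mu 1 1) * S y) = j 0 (mu 0 0) * S x := by
    rw [mul_add, ← mul_assoc, ← mul_assoc, ← map_mul, ← map_mul, mu_mul, mu_mul, if_pos rfl,
      if_neg (by decide), map_zero, zero_mul, add_zero]
  have e2 : j 0 (mu 1 0) * (j 0 (mu 0 0) * S x + j 0 (mu 1 1) * S y) = j 0 (mu 1 0) * S x := by
    rw [mul_add, ← mul_assoc, ← mul_assoc, ← map_mul, ← map_mul, mu_mul, mu_mul, if_pos rfl,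
      if_neg (by decide), map_zero, zero_mul, add_zero]
  rw [e1, e2, mul_assoc, mul_assoc, ← h.comm hv, ← h.comm hv, ← mul_assoc, ← mul_assoc, ← map_mul,
    ← map_mul, mu_mul, mu_mul, if_pos rfl, if_pos rfl]

lemma blk_same (h : IsShift t j S) (hv : IsVN t) (x : R) : blk h hv x x = S x := by
  show j 0 (mu 0 0) * S x + j 0 (mu 1 1) * S x = S x
  rw [← add_mul, ← map_add, show mu 0 0 + mu 1 1 = 1 by rw [← sum_mu, Fin.sum_univ_two], map_one,
    one_mul]

/-- constant sequence -/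
noncomputable def cst (x : R) : ℕ →ᵇ R := BoundedContinuousFunction.const ℕ x

lemma cst_apply (x : R) (n : ℕ) : cst x n = x := rfl

variable (j)

/-- the sequence of images -/
noncomputable def phSeq (x : ℕ →ᵇ R) : ℕ →ᵇ R :=
  cst (j 0 (mu 0 0)) * x * cst (j 0 (mu 0 0)) + cst (j 0 (mu 1 0)) * x * cst (j 0 (mu 0 1))

lemma phSeq_apply (x : ℕ →ᵇ R) (n : ℕ) : phSeq j x n = ph j (x n) := rfl

variable (t) (U : Ultrafilter ℕ)

/-- the ultraproduct map -/
noncomputable def Ph (X : Ultrapower t U) : Ultrapower t U :=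
  cls t U (cst (j 0 (mu 0 0))) * X * cls t U (cst (j 0 (mu 0 0))) +
    cls t U (cst (j 0 (mu 1 0))) * X * cls t U (cst (j 0 (mu 0 1)))

lemma Ph_cls (x : ℕ →ᵇ R) : Ph j t U (cls t U x) = cls t U (phSeq j x) := by
  unfold Ph phSeq
  rw [map_add, map_mul, map_mul, map_mul, map_mul]

lemma isUltraMap_ph : IsUltraMap t U (fun _ => ph j) (Ph j t U) :=
  fun x => ⟨phSeq j x, fun _ => rfl, Ph_cls j t U x⟩

variable {j} {t}

lemma Ph_midHom (h : IsShift t j S) (hv : IsVN t) {M : Type v} [CStarAlgebra M]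
    (σ ρ : M →⋆ₐ[ℂ] Ultrapower t U) (T : M) :
    Ph j t U (midHom h hv U σ ρ T) = midHom h hv U σ σ T := by
  obtain ⟨x, hx⟩ := Ideal.Quotient.mk_surjective (σ T)
  obtain ⟨y, hy⟩ := Ideal.Quotient.mk_surjective (ρ T)
  rw [midHom_apply, midHom_apply, ← hx, ← hy]
  change Ph j t U (cls t U (cornerSeq h hv 0 x) + cls t U (cornerSeq h hv 1 y)) =
    cls t U (cornerSeq h hv 0 x) + cls t U (cornerSeq h hv 1 x)
  rw [← map_add, Ph_cls, ← map_add]
  congr 1
  ext n
  exact ph_blk h hv (x n) (y n)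

/-- trace preservation follows from preservation of the 2-norm -/
lemma re_tr_eq {A : Type u} [CStarAlgebra A] (s : PTr A) (x : A) :
    4 * (s.tr x).re = s.n2 (1 + x) ^ 2 - s.n2 (1 - x) ^ 2 := by
  rw [s.n2_sq, s.n2_sq]
  simp only [star_add, star_sub, star_one, add_mul, mul_add, sub_mul, mul_sub, one_mul, mul_one,
    map_add, map_sub, Complex.add_re, Complex.sub_re, s.tr_star, Complex.conj_re]
  ring

lemma utr_of_un2 {M : Type v} [CStarAlgebra M] (s : PTr M) (π : M →⋆ₐ[ℂ] Ultrapower t U)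
    (hπ : ∀ x, un2 t U (π x) = s.n2 x) (x : M) : utr t U (π x) = s.tr x := by
  have key : ∀ x : M, (utr t U (π x)).re = (s.tr x).re := by
    intro x
    obtain ⟨y, hy⟩ := Ideal.Quotient.mk_surjective (π x)
    have h1 := re_tr_eq (t.ultra U) y
    have h2 := re_tr_eq s x
    have h3 : un2 t U (π (1 + x)) = (t.ultra U).n2 (1 + y) := by
      rw [map_add, map_one, ← hy]
      rfl
    have h4 : un2 t U (π (1 - x)) = (t.ultra U).n2 (1 - y) := by
      rw [map_sub, map_one, ← hy]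
      rfl
    have h5 : utr t U (π x) = (t.ultra U).tr y := by
      rw [← hy]
      rfl
    rw [← h3, ← h4, hπ, hπ, ← h5] at h1
    linarith
  apply Complex.ext
  · exact key x
  · have h1 := key (Complex.I • x)
    obtain ⟨y, hy⟩ := Ideal.Quotient.mk_surjective (π x)
    have h5 : utr t U (π x) = (t.ultra U).tr y := by
      rw [← hy]
      rfl
    have h6 : utr t U (π (Complex.I • x)) = (t.ultra U).tr (Complex.I • y) := by
      rw [map_smul, ← hy]
      rfl
    rw [h6, map_smul, map_smul, ← h5] at h1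
    simp only [smul_eq_mul, Complex.mul_re, Complex.I_re, Complex.I_im, zero_mul, one_mul,
      zero_sub] at h1
    linarith

lemma isEmbedding_of_un2 {M : Type v} [CStarAlgebra M] (s : PTr M) (hs : IsIIOneFactor s)
    (π : M →⋆ₐ[ℂ] Ultrapower t U) (hπ : ∀ x, un2 t U (π x) = s.n2 x) : IsEmbedding t U s π := by
  refine ⟨?_, utr_of_un2 U s π hπ, hπ⟩
  rw [injective_iff_map_eq_zero]
  intro x hx
  have h1 := hπ x
  rw [hx, ← map_zero (cls t U), un2_cls, PTr.n2_zero] at h1
  exact hs.toIsVN.n2_eq_zero h1.symm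

end

end Pool.Agent.H231R3.Ucp
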