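import Mathlib
import Pool.Agent.H231R3.UcpMap

set_option autoImplicit false

open scoped BoundedContinuousFunction ComplexOrder Topology InnerProductSpace
open Filter

namespace Pool.Agent.H231R3.Ucp

open Pool.Agent.Helper234.Brown

universe u v

section

variable {R : Type u} [CStarAlgebra R] {t : PTr R}
variable {j : ℕ → (Matrix (Fin 2) (Fin 2) ℂ →⋆ₐ[ℂ] R)} {S : R →⋆ₐ[ℂ] R}

lemma norm_e11_le : ‖j 0 (mu 1 1)‖ ≤ 1 := IsShift.norm_j_mu_le j 0 1 1

lemma n2_e11_sq (h : IsShift t j S) (hv : IsVN t) : t.n2 (j 0 (mu 1 1)) ^ 2 = 1 / 2 := by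
  rw [t.n2_sq, ← map_star, star_mu, ← map_mul, mu_mul, if_pos rfl]
  have h1 := h.tr_corner hv 1 1
  rw [map_one, mul_one, t.tr_one] at h1
  rw [h1]
  norm_num

/-- averaging estimate -/
lemma avg_lower (A B : Fin 16 → R) (hB : ∀ i, star (B i) = B i) (hB2 : ∀ i, B i * B i = 1) (x : R)
    (δ : ℝ) (hx : ∀ i, t.n2 (A i * x - x * B i) < δ) :
    16 * t.n2 x ≤ t.n2 (avgOp A B x) + 16 * δ := by
  have e1 : (16 : ℂ) • x = avgOp A B x + ∑ i, (x - A i * x * B i) := by
    unfold avgOp
    rw [Finset.sum_sub_distrib, Finset.sum_const, Finset.card_univ, Fintype.card_fin,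
      add_sub_cancel]
    rw [← Nat.cast_smul_eq_nsmul ℂ]; norm_num
  have e2 : t.n2 (∑ i, (x - A i * x * B i)) ≤ ∑ _i : Fin 16, δ := by
    have gen : ∀ s : Finset (Fin 16), t.n2 (∑ i ∈ s, (x - A i * x * B i)) ≤ ∑ _i ∈ s, δ := by
      intro s
      classical
      induction s using Finset.induction_on with
      | empty => simp
      | insert i s hi ih =>
        rw [Finset.sum_insert hi, Finset.sum_insert hi]
        refine (t.n2_add_le _ _).trans (add_le_add ?_ ih)
        have e3 : x - A i * x * B i = -((A i * x - x * B i) * B i) := by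
          rw [sub_mul, mul_assoc x, hB2, mul_one]; abel
        rw [e3, t.n2_neg, t.n2_mul_unitary (by rw [hB, hB2])]
        exact (hx i).le
    exact gen _
  have e3 := t.n2_smul (16 : ℂ) x
  rw [e1] at e3
  have e4 := t.n2_add_le (avgOp A B x) (∑ i, (x - A i * x * B i))
  have e5 : ‖(16 : ℂ)‖ = 16 := by norm_num
  rw [e5] at e3
  have e6 : ∑ _i : Fin 16, δ = 16 * δ := by
    rw [Finset.sum_const, Finset.card_univ, Fintype.card_fin, nsmul_eq_mul]; norm_num
  rw [e6] at e2
  linarith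

variable {U : Ultrafilter ℕ}

/-- the two embeddings are not conjugate -/
lemma not_conj (h : IsShift t j S) (hv : IsVN t) (P : MicroAlg t U) {c c' : ℕ → Tup R}
    (hg : EGap t U c c') (hc : MS t U c) (hc' : MS t U c') (X : Ultrapower t U)
    (hX : X ∈ unitary (Ultrapower t U)) :
    ¬ ∀ i, X * P.hom _ (hc.mid h hv hc') (P.g i) * star X = P.hom _ (hc.mid h hv hc) (P.g i) := by
  intro hall
  obtain ⟨x, rfl⟩ := Ideal.Quotient.mk_surjective X
  have hX1 : star (cls t U x) * cls t U x = 1 := hX.1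
  have hX2 : cls t U x * star (cls t U x) = 1 := hX.2
  set E : ℕ →ᵇ R := cst (j 0 (mu 1 1)) with hE
  have hE1 : (t.ultra U).n2 (x * E) ^ 2 = 1 / 2 := by
    have e1 : (t.ultra U).n2 (x * E) = (t.ultra U).n2 E := by
      have := un2_unitary_mul (t := t) (U := U) (u := cls t U x) hX1 (cls t U E)
      rw [← map_mul, un2_cls, un2_cls] at this
      exact this
    have e2 : (t.ultra U).n2 E = t.n2 (j 0 (mu 1 1)) := by
      refine tendsto_nhds_unique (t.tendsto_n2 U E) ?_
      exact tendsto_const_nhds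
    rw [e1, e2, n2_e11_sq h hv]
  have h1 : ∀ i, ∀ᶠ n in (U : Filter ℕ),
      t.n2 (S ((c n).y i) * (x * E) n - (x * E) n * S ((c' n).y i)) < 1 / 100 := by
    intro i
    have h2 := hall i
    change cls t U x * _ * star (cls t U x) = _ at h2
    rw [P.hom_g _ (hc.mid h hv hc') i (coordSeq (midSeq h hv c c') i) (fun _ => rfl),
      P.hom_g _ (hc.mid h hv hc) i (coordSeq (midSeq h hv c c) i) (fun _ => rfl)] at h2
    have h3 : cls t U x * cls t U (coordSeq (midSeq h hv c c') i) =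
        cls t U (coordSeq (midSeq h hv c c) i) * cls t U x := by
      rw [← h2, mul_assoc _ (star (cls t U x)), hX1, mul_one]
    rw [← map_mul, ← map_mul, cls_eq_iff] at h3
    have h4 := (t.tendsto_n2 U (x * coordSeq (midSeq h hv c c') i -
      coordSeq (midSeq h hv c c) i * x)).eventually_lt_const
      (show _ < (1 / 100 : ℝ) by rw [h3]; norm_num)
    filter_upwards [h4] with n hn
    have e1 : S ((c n).y i) * (x * E) n - (x * E) n * S ((c' n).y i) =
        -((x * coordSeq (midSeq h hv c c') i - coordSeq (midSeq h hv c c) i * x) n *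
          j 0 (mu 1 1)) := by
      show S ((c n).y i) * (x n * j 0 (mu 1 1)) - (x n * j 0 (mu 1 1)) * S ((c' n).y i) =
        -((x n * blk h hv ((c n).y i) ((c' n).y i) - blk h hv ((c n).y i) ((c n).y i) * x n) *
          j 0 (mu 1 1))
      rw [blk_same]
      have e2 : blk h hv ((c n).y i) ((c' n).y i) * j 0 (mu 1 1) =
          j 0 (mu 1 1) * S ((c' n).y i) := by
        show (j 0 (mu 0 0) * S ((c n).y i) + j 0 (mu 1 1) * S ((c' n).y i)) * j 0 (mu 1 1) = _
        rw [add_mul, mul_assoc, mul_assoc, ← h.comm hv, ← h.comm hv, ← mul_assoc, ← mul_assoc,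
          ← map_mul, ← map_mul, mu_mul, mu_mul, if_neg (by decide), if_pos rfl, map_zero, zero_mul,
          zero_add]
      rw [sub_mul, mul_assoc (x n) (blk h hv _ _), e2, mul_assoc, mul_assoc]
      abel
    rw [e1, t.n2_neg]
    refine lt_of_le_of_lt ?_ hn
    refine (t.n2_mul_le' _ _).trans ?_
    refine mul_le_of_le_one_right (t.n2_nonneg _) norm_e11_le
  have e2 : ∀ᶠ n in (U : Filter ℕ), t.n2 ((x * E) n) < 71 / 100 :=
    (t.tendsto_n2 U (x * E)).eventually_lt_const (by
      have := (t.ultra U).n2_nonneg (x * E)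
      nlinarith)
  have e2' : ∀ᶠ n in (U : Filter ℕ), 7 / 10 < t.n2 ((x * E) n) :=
    (t.tendsto_n2 U (x * E)).eventually_const_lt (by
      have := (t.ultra U).n2_nonneg (x * E)
      nlinarith)
  have e3 := hg S S ‖x * E‖ 1 one_pos
  obtain ⟨n, hn1, hn2, hn2', hn3⟩ := ((eventually_all.mpr h1).and (e2.and (e2'.and e3))).exists
  have h4 := hn3 ((x * E) n) ((x * E).norm_coe_le_norm n)
  have h5 := avg_lower (t := t) (fun i => S ((c n).y i)) (fun i => S ((c' n).y i))
    (fun i => by rw [← map_star, (c' n).sa]) (fun i => by rw [← map_mul, (c' n).sq, map_one])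
    ((x * E) n) (1 / 100) hn1
  have h6 := t.n2_nonneg (avgOp (fun i => S ((c n).y i)) (fun i => S ((c' n).y i)) ((x * E) n))
  nlinarith

theorem main (hR : IsHyperfinite t) (hU : (U : Filter ℕ) ≤ cofinite) : UcpNotUnitary t U := by
  obtain ⟨j, hj, hd⟩ := hR.matrices
  have hv : IsVN t := hR.toIsVN
  obtain ⟨S, hS1, hS2⟩ := exists_shift j hj hv hd
  have h : IsShift t j S := ⟨hj, hd, hS1, hS2⟩
  obtain ⟨Λ⟩ := exists_levels (t := t) j hj
  have h0 : MS t U (leaf Λ 0) := leaf_ms hU Λ 0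
  have h1 : MS t U (leaf Λ 1) := leaf_ms hU Λ 1
  obtain ⟨P⟩ := exists_microAlg hv h0
  refine ⟨P.M, P.inst, P.s, P.hom _ (h0.mid h hv h1), P.hom _ (h0.mid h hv h0), fun _ => ph j,
    Ph j t U, P.factor, P.sep, isEmbedding_of_un2 U _ P.factor _ (P.un2_hom _ _),
    isEmbedding_of_un2 U _ P.factor _ (P.un2_hom _ _), fun _ => isUcp_ph j, isUltraMap_ph j t U,
    ?_, ?_⟩
  · intro x
    rw [hom_mid h hv P h0 h1, hom_mid h hv P h0 h0, Ph_midHom]
  · intro u hu hall
    exact not_conj h hv P (leaf_gap hU Λ 0 1 (by decide)) h0 h1 u hu (fun i => hall (P.g i))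

end

end Pool.Agent.H231R3.Ucp
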